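import Mathlib

-- part Pool.Agent.Lib.MP_560012_lc.Tree
section

/-!
Branches of a tree, and orientations with at most two ends.
-/

namespace Pool.Agent.Lib.MP_560012_lc

open Relation

variable {V : Type*}

/-- The branch at `x` through the neighbour `y`: the vertices joined to `y` by a walk avoiding `x`. -/
def Br (G : SimpleGraph V) (x y : V) : Set V :=
  {z | G.Adj x y ∧ ReflTransGen (fun a b => G.Adj a b ∧ b ≠ x) y z}

variable {G : SimpleGraph V}

lemma Br.adj {x y z : V} (h : z ∈ Br G x y) : G.Adj x y := h.1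

lemma Br.self {x y : V} (h : G.Adj x y) : y ∈ Br G x y := ⟨h, ReflTransGen.refl⟩

lemma Br.step {x y z w : V} (h : z ∈ Br G x y) (hzw : G.Adj z w) (hw : w ≠ x) :
    w ∈ Br G x y := ⟨h.1, h.2.tail ⟨hzw, hw⟩⟩

lemma Br.ne {x y z : V} (h : z ∈ Br G x y) : z ≠ x := by
  obtain ⟨hxy, h⟩ := h
  induction h with
  | refl => exact hxy.ne.symm
  | tail _ h _ => exact h.2

lemma Br.eq_empty {x y : V} (h : ¬ G.Adj x y) : Br G x y = ∅ := by
  ext z
  simp only [Set.mem_empty_iff_false, iff_false]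
  exact fun hz => h hz.1

lemma reach_of_connected (hG : G.Connected) (x z : V) : ReflTransGen G.Adj x z :=
  (SimpleGraph.reachable_iff_reflTransGen x z).1 (hG.preconnected x z)

lemma Br.exists_mem (hG : G.Connected) {x z : V} (hz : z ≠ x) : ∃ y, z ∈ Br G x y := by
  have key : ∀ z, ReflTransGen G.Adj x z → z = x ∨ ∃ y, z ∈ Br G x y := by
    intro z h
    induction h with
    | refl => exact Or.inl rfl
    | @tail b c _ hbc ih =>
      by_cases hc : c = x
      · exact Or.inl hc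
      · right
        rcases ih with rfl | ⟨y, hy⟩
        · exact ⟨c, Br.self hbc⟩
        · exact ⟨y, Br.step hy hbc hc⟩
  exact (key z (reach_of_connected hG x z)).resolve_left hz

lemma Br.reach_delete {x y z y' : V} (h : z ∈ Br G x y) :
    (G.deleteEdges {s(x, y')}).Reachable y z := by
  obtain ⟨hxy, h⟩ := h
  induction h with
  | refl => rfl
  | @tail b c hb hbc ih =>
    have hbx : b ≠ x := Br.ne (G := G) ⟨hxy, hb⟩
    refine ih.trans (SimpleGraph.Adj.reachable ?_)
    rw [SimpleGraph.deleteEdges_adj]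
    refine ⟨hbc.1, ?_⟩
    simp only [Set.mem_singleton_iff, Sym2.eq_iff]
    rintro (⟨h1, _⟩ | ⟨_, h2⟩)
    · exact hbx h1
    · exact hbc.2 h2

lemma Br.eq_of_mem (hG : G.IsAcyclic) {x y y' z : V} (h : z ∈ Br G x y) (h' : z ∈ Br G x y') :
    y = y' := by
  by_contra hne
  have hb := SimpleGraph.isAcyclic_iff_forall_adj_isBridge.1 hG h.1
  rw [SimpleGraph.isBridge_iff] at hb
  apply hb
  have h1 : (G.deleteEdges {s(x, y)}).Reachable y z := Br.reach_delete h
  have h2 : (G.deleteEdges {s(x, y)}).Reachable y' z := Br.reach_delete h'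
  have h3 : (G.deleteEdges {s(x, y)}).Adj x y' := by
    rw [SimpleGraph.deleteEdges_adj]
    refine ⟨h'.1, ?_⟩
    simp only [Set.mem_singleton_iff, Sym2.eq_iff]
    rintro (⟨_, h1⟩ | ⟨h1, _⟩)
    · exact hne h1.symm
    · exact h.1.ne h1
  exact h3.reachable.trans (h2.trans h1.symm)

lemma Br.cover (hG : G.Connected) {x y : V} (hxy : G.Adj x y) (z : V) :
    z ∈ Br G x y ∨ z ∈ Br G y x := by
  have h := reach_of_connected hG x z
  induction h with
  | refl => exact Or.inr (Br.self hxy.symm)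
  | @tail b c _ hbc ih =>
    by_cases hc : c = x
    · subst hc; exact Or.inr (Br.self hxy.symm)
    by_cases hc' : c = y
    · subst hc'; exact Or.inl (Br.self hxy)
    rcases ih with h | h
    · exact Or.inl (Br.step h hbc hc)
    · exact Or.inr (Br.step h hbc hc')

lemma Br.not_both (hG : G.IsAcyclic) {x y z : V} (h : z ∈ Br G x y) (h' : z ∈ Br G y x) :
    False := by
  have hb := SimpleGraph.isAcyclic_iff_forall_adj_isBridge.1 hG h.1
  rw [SimpleGraph.isBridge_iff] at hb
  apply hb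
  have h1 : (G.deleteEdges {s(x, y)}).Reachable y z := Br.reach_delete h
  have h2 : (G.deleteEdges {s(y, x)}).Reachable x z := Br.reach_delete h'
  rw [Sym2.eq_swap] at h2
  exact h2.trans h1.symm

lemma Br.compl (hG : G.IsTree) {x y : V} (hxy : G.Adj x y) : (Br G x y)ᶜ = Br G y x := by
  ext z
  constructor
  · intro h
    exact (Br.cover hG.connected hxy z).resolve_left h
  · intro h h'
    exact Br.not_both hG.isAcyclic h' h

lemma Br.mono (hG : G.IsTree) {x y z : V} (hxy : G.Adj x y) (hz : z ≠ x) :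
    Br G y z ⊆ Br G x y := by
  intro w hw
  refine (Br.cover hG.connected hxy w).resolve_right fun h => ?_
  exact hz (Br.eq_of_mem hG.isAcyclic hw h)

lemma Br.cover' (hG : G.IsTree) {x y x' y' : V} (hy : y ∈ Br G x x') (hx : x ∈ Br G y y')
    (z : V) : z ∈ Br G x x' ∨ z ∈ Br G y y' := by
  by_cases hz : z = x
  · subst hz; exact Or.inr hx
  obtain ⟨x'', hz⟩ := Br.exists_mem hG.connected hz
  rename_i hz0
  clear hz0
  by_cases hx'' : x'' = x'
  · subst hx''; exact Or.inl hz
  right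
  have hne : ∀ w, w ∈ Br G x x'' → w ≠ y := by
    rintro w hw rfl
    exact hx'' (Br.eq_of_mem hG.isAcyclic hw hy)
  obtain ⟨hadj, hz⟩ := hz
  induction hz with
  | refl => exact Br.step hx hadj (hne _ (Br.self hadj))
  | @tail b c hb hbc ih =>
    exact Br.step ih hbc.1 (hne _ ⟨hadj, hb.tail hbc⟩)

/-- The vertices reached from `x` by at most `L` steps of the relation `O`. -/
def Ball (O : V → V → Prop) (x : V) : ℕ → Set V
  | 0 => {x}
  | L + 1 => Ball O x L ∪ {z | ∃ y ∈ Ball O x L, O y z}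

lemma mem_ball_succ {O : V → V → Prop} {x z : V} {L : ℕ} :
    z ∈ Ball O x (L + 1) ↔ z ∈ Ball O x L ∨ ∃ y ∈ Ball O x L, O y z := Iff.rfl

lemma mem_ball_zero {O : V → V → Prop} {x z : V} : z ∈ Ball O x 0 ↔ z = x := Iff.rfl

lemma ball_mono (O : V → V → Prop) (x : V) : Monotone (Ball O x) :=
  monotone_nat_of_le_succ fun _ => Set.subset_union_left

lemma self_mem_ball (O : V → V → Prop) (x : V) (L : ℕ) : x ∈ Ball O x L :=
  ball_mono O x (Nat.zero_le L) rfl

lemma reflTransGen_iff_ball {O : V → V → Prop} {x z : V} :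
    ReflTransGen O x z ↔ ∃ L, z ∈ Ball O x L := by
  constructor
  · intro h
    induction h with
    | refl => exact ⟨0, rfl⟩
    | tail _ hbc ih =>
      obtain ⟨L, hL⟩ := ih
      exact ⟨L + 1, Or.inr ⟨_, hL, hbc⟩⟩
  · rintro ⟨L, hL⟩
    induction L generalizing z with
    | zero => rw [mem_ball_zero] at hL; subst hL; rfl
    | succ L ih =>
      rcases hL with h | ⟨y, hy, hyz⟩
      · exact ih h
      · exact (ih hy).tail hyz

lemma ball_subset_of_step {O : V → V → Prop} {x y : V} (h : O y x) (L : ℕ) :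
    Ball O x L ⊆ Ball O y (L + 1) := by
  induction L with
  | zero =>
    intro z hz
    rw [mem_ball_zero] at hz; subst hz
    exact Or.inr ⟨y, rfl, h⟩
  | succ L ih =>
    rintro z (hz | ⟨w, hw, hwz⟩)
    · exact Or.inl (ih hz)
    · exact Or.inr ⟨w, ih hw, hwz⟩

/-- Transport of balls along a bijection. -/
lemma mem_ball_equiv {W : Type*} {O : V → V → Prop} {O' : W → W → Prop} (e : V ≃ W)
    (h : ∀ a b, O a b ↔ O' (e a) (e b)) (x : V) (L : ℕ) (z : V) :
    z ∈ Ball O x L ↔ e z ∈ Ball O' (e x) L := by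
  induction L generalizing z with
  | zero => simp [mem_ball_zero]
  | succ L ih =>
    rw [mem_ball_succ, mem_ball_succ, ih]
    refine or_congr Iff.rfl ⟨?_, ?_⟩
    · rintro ⟨y, hy, hyz⟩
      exact ⟨e y, (ih y).1 hy, (h _ _).1 hyz⟩
    · rintro ⟨y, hy, hyz⟩
      obtain ⟨y, rfl⟩ := e.surjective y
      exact ⟨y, (ih y).2 hy, (h _ _).2 hyz⟩

/-- A set of oriented edges of a tree that points to one end or to two ends. -/
structure EndLike (G : SimpleGraph V) (O : V → V → Prop) : Prop where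
  tree : G.IsTree
  adj : ∀ x y, O x y → G.Adj x y
  out : ∀ x, ∃ y, O x y
  two : ∀ x y₁ y₂ y₃, O x y₁ → O x y₂ → O x y₃ → y₁ = y₂ ∨ y₁ = y₃ ∨ y₂ = y₃
  back : ∀ x y z, O y z → G.Adj x y → x ≠ z → O x y
  cont : ∀ x y, O x y → ∃ z, z ≠ x ∧ O y z

variable {O : V → V → Prop}

lemma EndLike.uniq (h : EndLike G O) {x y z : V} (hxy : G.Adj x y) (hn : ¬ O y x)
    (hz : O x z) : z = y := by
  by_contra hne
  exact hn (h.back y x z hz hxy.symm (Ne.symm hne))

lemma EndLike.ball_adj (h : EndLike G O) {x y : V} (hxy : G.Adj x y) (L : ℕ) :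
    Ball O x L ⊆ insert x (Ball O y (L + 1)) := by
  by_cases hyx : O y x
  · exact (ball_subset_of_step hyx L).trans (Set.subset_insert _ _)
  · have key : ∀ L, Ball O x L ⊆ insert x (Ball O y L) := by
      intro L
      induction L with
      | zero => intro z hz; exact Or.inl hz
      | succ L ih =>
        rintro z (hz | ⟨w, hw, hwz⟩)
        · rcases ih hz with h1 | h1
          · exact Or.inl h1
          · exact Or.inr (Or.inl h1)
        · rcases ih hw with h1 | h1
          · subst h1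
            rw [h.uniq hxy hyx hwz]
            exact Or.inr (self_mem_ball O y _)
          · exact Or.inr (Or.inr ⟨w, h1, hwz⟩)
    exact (key L).trans (Set.insert_subset_insert (ball_mono O y (Nat.le_succ L)))

lemma EndLike.ball_any (h : EndLike G O) (x y : V) :
    ∃ (d : ℕ) (F : Finset V), ∀ L, Ball O x L ⊆ (F : Set V) ∪ Ball O y (L + d) := by
  classical
  have hr := reach_of_connected h.tree.connected x y
  induction hr with
  | refl => exact ⟨0, ∅, fun L => by simp⟩
  | @tail b c _ hbc ih =>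
    obtain ⟨d, F, hF⟩ := ih
    refine ⟨d + 1, insert b F, fun L z hz => ?_⟩
    rcases hF L hz with h1 | h1
    · exact Or.inl (by simp [show z ∈ F from h1])
    · rcases h.ball_adj hbc _ h1 with h2 | h2
      · exact Or.inl (by simp [h2])
      · exact Or.inr h2

/-- The oriented edges leaving a ball. -/
def Fr (O : V → V → Prop) (x : V) (L : ℕ) : Set (V × V) :=
  {e | e.1 ∈ Ball O x L ∧ O e.1 e.2 ∧ e.2 ∉ Ball O x L}

lemma fr_parent {x : V} {L : ℕ} {e : V × V} (he : e ∈ Fr O x (L + 1)) :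
    ∃ w, (w, e.1) ∈ Fr O x L ∧ w ≠ e.2 := by
  obtain ⟨h1, h2, h3⟩ := he
  have h4 : e.1 ∉ Ball O x L := fun h => h3 (Or.inr ⟨_, h, h2⟩)
  rcases h1 with h1 | ⟨w, hw, hwe⟩
  · exact absurd h1 h4
  · refine ⟨w, ⟨hw, hwe, h4⟩, ?_⟩
    rintro rfl
    exact h3 (Or.inl hw)

lemma EndLike.fr_single (h : EndLike G O) (x : V) (L : ℕ) :
    ∀ e ∈ Fr O x L, ¬ O e.2 e.1 → ∀ e' ∈ Fr O x L, e' = e := by
  induction L with
  | zero =>
    rintro ⟨a, b⟩ ⟨h1, h2, -⟩ hn ⟨a', b'⟩ ⟨h1', h2', -⟩
    simp only [mem_ball_zero] at h1 h1' h2 h2' hn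
    subst h1 h1'
    rw [h.uniq (h.adj _ _ h2) hn h2']
  | succ L ih =>
    rintro ⟨y, z⟩ he hn ⟨y', z'⟩ he'
    obtain ⟨w, hw, hwz⟩ := fr_parent he
    obtain ⟨w', hw', -⟩ := fr_parent he'
    have hyz : O y z := he.2.1
    have hn' : ¬ O y w := fun hyw => hwz (h.uniq (h.adj _ _ hyz) hn hyw)
    have := ih _ hw hn' _ hw'
    simp only [Prod.mk.injEq] at this
    obtain ⟨-, rfl⟩ := this
    exact Prod.ext rfl (h.uniq (h.adj _ _ hyz) hn he'.2.1)

lemma EndLike.fr_two (h : EndLike G O) (x : V) (L : ℕ) :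
    ∀ e₁ ∈ Fr O x L, ∀ e₂ ∈ Fr O x L, ∀ e₃ ∈ Fr O x L, e₁ = e₂ ∨ e₁ = e₃ ∨ e₂ = e₃ := by
  induction L with
  | zero =>
    rintro ⟨a, b⟩ ⟨h1, h2, -⟩ ⟨a', b'⟩ ⟨h1', h2', -⟩ ⟨a'', b''⟩ ⟨h1'', h2'', -⟩
    simp only [mem_ball_zero] at h1 h1' h2 h2' h1'' h2''
    subst h1 h1' h1''
    simpa using h.two _ _ _ _ h2 h2' h2''
  | succ L ih =>
    rintro ⟨y₁, z₁⟩ he₁ ⟨y₂, z₂⟩ he₂ ⟨y₃, z₃⟩ he₃
    obtain ⟨w₁, hw₁, hn₁⟩ := fr_parent he₁
    obtain ⟨w₂, hw₂, hn₂⟩ := fr_parent he₂
    obtain ⟨w₃, hw₃, hn₃⟩ := fr_parent he₃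
    by_cases hall : ∀ e ∈ Fr O x L, O e.2 e.1
    · have key : ∀ {w y z z' : V}, (w, y) ∈ Fr O x L → w ≠ z → w ≠ z' → O y z → O y z' →
          z = z' := by
        intro w y z z' hw h1 h2 h3 h4
        rcases h.two y w z z' (hall _ hw) h3 h4 with h5 | h5 | h5
        · exact absurd h5 h1
        · exact absurd h5 h2
        · exact h5
      rcases ih _ hw₁ _ hw₂ _ hw₃ with h5 | h5 | h5 <;>
        simp only [Prod.mk.injEq] at h5 <;> obtain ⟨rfl, rfl⟩ := h5
      · left; exact Prod.ext rfl (key hw₁ hn₁ hn₂ he₁.2.1 he₂.2.1)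
      · right; left; exact Prod.ext rfl (key hw₁ hn₁ hn₃ he₁.2.1 he₃.2.1)
      · right; right; exact Prod.ext rfl (key hw₂ hn₂ hn₃ he₂.2.1 he₃.2.1)
    · push Not at hall
      obtain ⟨e, he, hne⟩ := hall
      have a₁ := h.fr_single x L e he hne _ hw₁
      have a₂ := h.fr_single x L e he hne _ hw₂
      have a₃ := h.fr_single x L e he hne _ hw₃
      have b₁ : y₁ = y₂ := by
        have := a₁.trans a₂.symm
        simp only [Prod.mk.injEq] at this
        exact this.2
      have b₂ : y₁ = y₃ := by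
        have := a₁.trans a₃.symm
        simp only [Prod.mk.injEq] at this
        exact this.2
      subst b₁ b₂
      simpa using h.two _ _ _ _ he₁.2.1 he₂.2.1 he₃.2.1

lemma exists_pair_of_three {α : Type*} (S : Set α) (a₀ : α)
    (h : ∀ a ∈ S, ∀ b ∈ S, ∀ c ∈ S, a = b ∨ a = c ∨ b = c) : ∃ a b, S ⊆ {a, b} := by
  by_cases h1 : ∃ a ∈ S, ∃ b ∈ S, a ≠ b
  · obtain ⟨a, ha, b, hb, hab⟩ := h1
    refine ⟨a, b, fun c hc => ?_⟩
    rcases h a ha b hb c hc with h2 | h2 | h2
    · exact absurd h2 hab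
    · exact Or.inl h2.symm
    · exact Or.inr h2.symm
  · push Not at h1
    rcases S.eq_empty_or_nonempty with rfl | ⟨a, ha⟩
    · exact ⟨a₀, a₀, by simp⟩
    · exact ⟨a, a, fun c hc => Or.inl (h1 c hc a ha)⟩

lemma EndLike.ball_succ (h : EndLike G O) (x : V) (L : ℕ) :
    ∃ a b, Ball O x (L + 1) ⊆ {a, b} ∪ Ball O x L := by
  obtain ⟨a, b, hab⟩ := exists_pair_of_three (Fr O x L) (x, x) (h.fr_two x L)
  refine ⟨a.2, b.2, ?_⟩
  rintro z (hz | ⟨y, hy, hyz⟩)
  · exact Or.inr hz
  · by_cases hz : z ∈ Ball O x L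
    · exact Or.inr hz
    · rcases hab (show (y, z) ∈ Fr O x L from ⟨hy, hyz, hz⟩) with h1 | h1
      · left; left; rw [← h1]
      · left; right; rw [← Set.mem_singleton_iff.1 h1]; rfl

lemma EndLike.ball_add (h : EndLike G O) (x : V) (d L : ℕ) :
    ∃ F : Finset V, F.card ≤ 2 * d ∧ Ball O x (L + d) ⊆ (F : Set V) ∪ Ball O x L := by
  classical
  induction d with
  | zero => exact ⟨∅, by simp, by simp⟩
  | succ d ih =>
    obtain ⟨F, hF, hsub⟩ := ih
    obtain ⟨a, b, hab⟩ := h.ball_succ x (L + d)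
    refine ⟨insert a (insert b F), ?_, fun z hz => ?_⟩
    · have h1 := Finset.card_insert_le a (insert b F)
      have h2 := Finset.card_insert_le b F
      omega
    · rcases hab hz with (h1 | h1) | h1
      · exact Or.inl (by simp [h1])
      · exact Or.inl (by simp [Set.mem_singleton_iff.1 h1])
      · rcases hsub h1 with h2 | h2
        · exact Or.inl (by simp [show z ∈ F from h2])
        · exact Or.inr h2

lemma EndLike.ball_finite (h : EndLike G O) (x : V) (L : ℕ) : (Ball O x L).Finite := by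
  obtain ⟨F, -, hF⟩ := h.ball_add x L 0
  rw [zero_add] at hF
  exact (F.finite_toSet.union (Set.finite_singleton x)).subset hF

lemma EndLike.ball_close (h : EndLike G O) (x y : V) :
    ∃ D : ℕ, ∀ L, ∃ F : Finset V, F.card ≤ D ∧ Ball O x L ⊆ (F : Set V) ∪ Ball O y L := by
  classical
  obtain ⟨d, F, hF⟩ := h.ball_any x y
  refine ⟨F.card + 2 * d, fun L => ?_⟩
  obtain ⟨F', hF', hsub⟩ := h.ball_add y d L
  refine ⟨F ∪ F', (Finset.card_union_le _ _).trans (by omega), fun z hz => ?_⟩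
  rcases hF L hz with h1 | h1
  · exact Or.inl (by simp [show z ∈ F from h1])
  · rcases hsub h1 with h2 | h2
    · exact Or.inl (by simp [show z ∈ F' from h2])
    · exact Or.inr h2

lemma EndLike.ball_large (h : EndLike G O) (x : V) (L : ℕ) : L + 1 ≤ (Ball O x L).ncard := by
  classical
  have key : ∀ L, ∃ (F : Finset V) (y z : V), L + 1 ≤ F.card ∧ (F : Set V) ⊆ Ball O x L ∧
      y ∈ Ball O x L ∧ O y z ∧ ∀ w ∈ F, w ∉ Br G y z := by
    intro L
    induction L with
    | zero =>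
      obtain ⟨z, hz⟩ := h.out x
      refine ⟨{x}, x, z, by simp, by simp [Ball], rfl, hz, ?_⟩
      intro w hw hw'
      exact Br.ne hw' (by simpa using hw)
    | succ L ih =>
      obtain ⟨F, y, z, h1, h2, h3, h4, h5⟩ := ih
      obtain ⟨z', hz', hzz'⟩ := h.cont y z h4
      have hzF : z ∉ F := fun hz => h5 z hz (Br.self (h.adj _ _ h4))
      have hzB : z ∈ Ball O x (L + 1) := Or.inr ⟨y, h3, h4⟩
      refine ⟨insert z F, z, z', by rw [Finset.card_insert_of_notMem hzF]; omega, ?_, hzB,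
        hzz', ?_⟩
      · intro w hw
        rcases Finset.mem_insert.1 (Finset.mem_coe.1 hw) with rfl | hw
        · exact hzB
        · exact Or.inl (h2 hw)
      · intro w hw hw'
        rcases Finset.mem_insert.1 hw with rfl | hw
        · exact Br.ne hw' rfl
        · exact h5 w hw (Br.mono h.tree (h.adj _ _ h4) hz' hw')
  obtain ⟨F, -, -, h1, h2, -⟩ := key L
  calc L + 1 ≤ F.card := h1
    _ = (F : Set V).ncard := (Set.ncard_coe_finset F).symm
    _ ≤ _ := Set.ncard_le_ncard h2 (h.ball_finite x L)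

/-- The proportion of the set `B` lying in `S`. -/
noncomputable def ratio (B S : Set V) : ℝ := ((B ∩ S).ncard : ℝ) / (B.ncard : ℝ)

lemma ratio_nonneg (B S : Set V) : 0 ≤ ratio B S := by unfold ratio; positivity

lemma ratio_le_one (B S : Set V) : ratio B S ≤ 1 := by
  unfold ratio
  by_cases hB : B.Finite
  · apply div_le_one_of_le₀ _ (by positivity)
    exact_mod_cast Set.ncard_le_ncard Set.inter_subset_left hB
  · rw [Set.Infinite.ncard hB]; simp

lemma ratio_sub_le {A B S : Set V} (hA : A.Finite) (hB : B.Finite) {D : ℕ} {n : ℝ} (hn : 0 < n)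
    (hAn : n ≤ A.ncard) (hBn : n ≤ B.ncard)
    {F F' : Finset V} (hF : F.card ≤ D) (hF' : F'.card ≤ D)
    (h1 : A ⊆ (F : Set V) ∪ B) (h2 : B ⊆ (F' : Set V) ∪ A) :
    ratio A S - ratio B S ≤ 2 * D / n := by
  have e1 : (A ∩ S).ncard ≤ D + (B ∩ S).ncard := by
    calc (A ∩ S).ncard ≤ ((F : Set V) ∪ (B ∩ S)).ncard := by
          apply Set.ncard_le_ncard _ (F.finite_toSet.union (hB.inter_of_left _))
          rintro z ⟨hz, hzS⟩
          rcases h1 hz with h | h
          · exact Or.inl h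
          · exact Or.inr ⟨h, hzS⟩
      _ ≤ (F : Set V).ncard + (B ∩ S).ncard := Set.ncard_union_le _ _
      _ ≤ _ := by rw [Set.ncard_coe_finset]; omega
  have e2 : B.ncard ≤ D + A.ncard := by
    calc B.ncard ≤ ((F' : Set V) ∪ A).ncard := Set.ncard_le_ncard h2 (F'.finite_toSet.union hA)
      _ ≤ (F' : Set V).ncard + A.ncard := Set.ncard_union_le _ _
      _ ≤ _ := by rw [Set.ncard_coe_finset]; omega
  have e3 : (B ∩ S).ncard ≤ B.ncard := Set.ncard_le_ncard Set.inter_subset_left hB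
  unfold ratio
  set a : ℝ := (A.ncard : ℝ)
  set b : ℝ := (B.ncard : ℝ)
  set a' : ℝ := ((A ∩ S).ncard : ℝ)
  set b' : ℝ := ((B ∩ S).ncard : ℝ)
  have f1 : a' ≤ D + b' := by simp only [a', b']; exact_mod_cast e1
  have f2 : b ≤ D + a := by simp only [a, b]; exact_mod_cast e2
  have f3 : b' ≤ b := by simp only [b', b]; exact_mod_cast e3
  have f4 : 0 ≤ b' := by positivity
  have f5 : (0 : ℝ) ≤ D := by positivity
  have ha : 0 < a := hn.trans_le hAn
  have hb : 0 < b := hn.trans_le hBn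
  have g1 : a' / a - b' / b ≤ 2 * D / a := by
    rw [div_sub_div _ _ ha.ne' hb.ne', div_le_div_iff₀ (mul_pos ha hb) ha]
    have : a' * b - a * b' ≤ 2 * D * b := by nlinarith
    nlinarith
  exact g1.trans (div_le_div_of_nonneg_left (by positivity) hn hAn)

lemma EndLike.ratio_tendsto (h : EndLike G O) (x y : V) (S : Set V) :
    Filter.Tendsto (fun L => ratio (Ball O x L) S - ratio (Ball O y L) S) Filter.atTop (nhds 0) := by
  obtain ⟨D, hD⟩ := h.ball_close x y
  obtain ⟨D', hD'⟩ := h.ball_close y x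
  have hlim : Filter.Tendsto (fun L : ℕ => 2 * ((D + D' : ℕ) : ℝ) / ((L : ℝ) + 1)) Filter.atTop
      (nhds 0) := by
    apply Filter.Tendsto.div_atTop tendsto_const_nhds
    exact Filter.tendsto_atTop_add_const_right _ _ tendsto_natCast_atTop_atTop
  refine squeeze_zero_norm (fun L => ?_) hlim
  obtain ⟨F, hF, h1⟩ := hD L
  obtain ⟨F', hF', h2⟩ := hD' L
  have hn : (0 : ℝ) < (L : ℝ) + 1 := by positivity
  have hx : (L : ℝ) + 1 ≤ (Ball O x L).ncard := by exact_mod_cast h.ball_large x L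
  have hy : (L : ℝ) + 1 ≤ (Ball O y L).ncard := by exact_mod_cast h.ball_large y L
  rw [Real.norm_eq_abs, abs_sub_le_iff]
  exact ⟨ratio_sub_le (h.ball_finite x L) (h.ball_finite y L) hn hx hy (by omega) (by omega) h1 h2,
    ratio_sub_le (h.ball_finite y L) (h.ball_finite x L) hn hy hx (by omega) (by omega) h2 h1⟩

end Pool.Agent.Lib.MP_560012_lc
end

-- part Pool.Agent.Lib.MP_560012_lc.Extract
section

/-!
Convex combinations of random probability measures that converge almost everywhere.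
-/

namespace Pool.Agent.Lib.MP_560012_lc

open MeasureTheory Filter Topology
open scoped ENNReal NNReal

lemma exists_cauchy_of_midpoint {H : Type*} [NormedAddCommGroup H] [InnerProductSpace ℝ H]
    (C : ℕ → Set H) (hanti : Antitone C)
    (hmid : ∀ j, ∀ x ∈ C j, ∀ y ∈ C j, (1 / 2 : ℝ) • (x + y) ∈ C j) (B : ℝ)
    (hne : ∀ j, ∃ x ∈ C j, ‖x‖ ^ 2 ≤ B) : ∃ g : ℕ → H, (∀ j, g j ∈ C j) ∧ CauchySeq g := by
  set d : ℕ → ℝ := fun j => sInf ((fun x => ‖x‖ ^ 2) '' C j) with hd
  have hbdd : ∀ j, BddBelow ((fun x : H => ‖x‖ ^ 2) '' C j) := fun j =>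
    ⟨0, by rintro _ ⟨x, -, rfl⟩; positivity⟩
  have hnon : ∀ j, ((fun x : H => ‖x‖ ^ 2) '' C j).Nonempty := fun j => by
    obtain ⟨x, hx, -⟩ := hne j
    exact ⟨_, x, hx, rfl⟩
  have hle : ∀ j, ∀ x ∈ C j, d j ≤ ‖x‖ ^ 2 := fun j x hx => csInf_le (hbdd j) ⟨x, hx, rfl⟩
  have hmono : Monotone d := fun j k hjk =>
    csInf_le_csInf (hbdd j) (hnon k) (Set.image_mono (hanti hjk))
  have hB : ∀ j, d j ≤ B := fun j => by
    obtain ⟨x, hx, hxB⟩ := hne j
    exact (hle j x hx).trans hxB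
  have hbd : BddAbove (Set.range d) := ⟨B, by rintro _ ⟨j, rfl⟩; exact hB j⟩
  set D := ⨆ j, d j with hD
  have hdD : ∀ j, d j ≤ D := fun j => le_ciSup hbd j
  have hlim : Tendsto d atTop (𝓝 D) := tendsto_atTop_ciSup hmono hbd
  have hex : ∀ j : ℕ, ∃ x ∈ C j, ‖x‖ ^ 2 < d j + 1 / ((j : ℝ) + 1) := fun j => by
    have : sInf ((fun x : H => ‖x‖ ^ 2) '' C j) < d j + 1 / ((j : ℝ) + 1) := by
      have : (0 : ℝ) < 1 / ((j : ℝ) + 1) := by positivity
      simp only [hd]; linarith
    obtain ⟨_, ⟨x, hx, rfl⟩, h⟩ := exists_lt_of_csInf_lt (hnon j) this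
    exact ⟨x, hx, h⟩
  choose g hg hg' using hex
  refine ⟨g, hg, ?_⟩
  refine cauchySeq_of_le_tendsto_0
    (fun N : ℕ => Real.sqrt (4 * (D - d N) + 4 * (1 / ((N : ℝ) + 1)))) ?_ ?_
  · intro n m N hn hm
    rw [dist_eq_norm]
    apply Real.le_sqrt_of_sq_le
    have h1 := hle N _ (hmid N _ (hanti hn (hg n)) _ (hanti hm (hg m)))
    rw [norm_smul, mul_pow] at h1
    have h2 := parallelogram_law_with_norm ℝ (g n) (g m)
    have h3 := hg' n
    have h4 := hg' m
    have h5 : 1 / ((n : ℝ) + 1) ≤ 1 / ((N : ℝ) + 1) := Nat.one_div_le_one_div hn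
    have h6 : 1 / ((m : ℝ) + 1) ≤ 1 / ((N : ℝ) + 1) := Nat.one_div_le_one_div hm
    have h7 := hdD n
    have h8 := hdD m
    have h9 : ‖(1 / 2 : ℝ)‖ ^ 2 = 1 / 4 := by norm_num
    rw [h9] at h1
    linarith
  · have h1 : Tendsto (fun N : ℕ => 4 * (D - d N) + 4 * (1 / ((N : ℝ) + 1))) atTop
        (𝓝 (4 * (D - D) + 4 * 0)) :=
      ((tendsto_const_nhds.sub hlim).const_mul 4).add
        (tendsto_one_div_add_atTop_nhds_zero_nat.const_mul 4)
    have h2 := h1.sqrt
    simpa using h2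

section meas

variable {M V : Type*} [MeasurableSpace M] [Countable V]

lemma measurable_mem_ball {O : M → V → V → Prop} (hO : ∀ a b, Measurable fun m => O m a b)
    (x : V) (L : ℕ) (z : V) : Measurable fun m => z ∈ Ball (O m) x L := by
  induction L generalizing z with
  | zero => simp only [mem_ball_zero]; exact measurable_const
  | succ L ih =>
    simp only [mem_ball_succ]
    exact (ih z).or (Measurable.exists fun y => (ih y).and (hO y z))

lemma measurable_mem_br {T : M → SimpleGraph V} (hT : ∀ a b, Measurable fun m => (T m).Adj a b)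
    (x y z : V) : Measurable fun m => z ∈ Br (T m) x y := by
  simp only [Br, Set.mem_ofPred_eq, reflTransGen_iff_ball]
  refine (hT x y).and (Measurable.exists fun L => ?_)
  exact measurable_mem_ball (O := fun m a b => (T m).Adj a b ∧ b ≠ x)
    (fun a b => (hT a b).and measurable_const) y L z

variable [MeasurableSpace V] [DiscreteMeasurableSpace V]

lemma measurable_measure_family {Λ : M → Measure V} (hΛ : ∀ v, Measurable fun m => Λ m {v})
    {S : M → Set V} (hS : ∀ v, Measurable fun m => v ∈ S m) :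
    Measurable fun m => (Λ m).real (S m) := by
  have : (fun m => Λ m (S m)) = fun m => ∑' v, (S m).indicator (fun v => Λ m {v}) v := by
    funext m
    rw [Measure.tsum_indicator_apply_singleton _ _ (DiscreteMeasurableSpace.forall_measurableSet _)]
  refine Measurable.ennreal_toReal ?_
  rw [this]
  refine Measurable.ennreal_tsum fun v => ?_
  have : (fun m => (S m).indicator (fun v => Λ m {v}) v) =
      Set.indicator {m | v ∈ S m} (fun m => Λ m {v}) := by
    funext m
    by_cases h : v ∈ S m <;> simp [h]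
  rw [this]
  exact (hΛ v).indicator (hS v).setOf

theorem exists_convergent (μ : Measure M) [SFinite μ] {I : Type*} [Countable I]
    (S : I → M → Set V) (hS : ∀ i v, Measurable fun m => v ∈ S i m)
    (lam : ℕ → M → Measure V) (hprob : ∀ n m, IsProbabilityMeasure (lam n m))
    (hmeas : ∀ n v, Measurable fun m => lam n m {v}) :
    ∃ Λ : ℕ → M → Measure V, (∀ j m, IsProbabilityMeasure (Λ j m)) ∧
      (∀ j v, Measurable fun m => Λ j m {v}) ∧
      (∀ j m m' A A' (C : ℝ), (∀ n, j ≤ n → (lam n m').real A' ≤ C * (lam n m).real A) →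
        (Λ j m').real A' ≤ C * (Λ j m).real A) ∧
      ∀ᵐ m ∂μ, ∀ i, ∃ l, Tendsto (fun j => (Λ j m).real (S i m)) atTop (𝓝 l) := by
  let : MeasurableSpace I := ⊤
  set π : Measure (M × I) := (μ.prod Measure.count).toFinite with hπ
  let K : ℕ → Set (M → Measure V) := fun j => {Λ | (∀ m, IsProbabilityMeasure (Λ m)) ∧
    (∀ v, Measurable fun m => Λ m {v}) ∧
    ∀ m m' A A' (C : ℝ), (∀ n, j ≤ n → (lam n m').real A' ≤ C * (lam n m).real A) →
        (Λ m').real A' ≤ C * (Λ m).real A}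
  have hKanti : Antitone K := by
    intro j k hjk Λ hΛ
    exact ⟨hΛ.1, hΛ.2.1, fun m m' A A' C h => hΛ.2.2 m m' A A' C fun n hn => h n (hjk.trans hn)⟩
  let f : (M → Measure V) → M × I → ℝ := fun Λ q => (Λ q.1).real (S q.2 q.1)
  let C : ℕ → Set (Lp ℝ 2 π) := fun j => {x | ∃ Λ ∈ K j, (x : M × I → ℝ) =ᵐ[π] f Λ}
  have hCanti : Antitone C := by
    rintro j k hjk x ⟨Λ, hΛ, hx⟩
    exact ⟨Λ, hKanti hjk hΛ, hx⟩
  have hmid : ∀ j, ∀ x ∈ C j, ∀ y ∈ C j, (1 / 2 : ℝ) • (x + y) ∈ C j := by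
    rintro j x ⟨Λ, hΛ, hx⟩ y ⟨Λ', hΛ', hy⟩
    have hreal : ∀ m A, (((1 / 2 : ℝ≥0) • (Λ m + Λ' m)).real A) =
        (1 / 2 : ℝ) * ((Λ m).real A + (Λ' m).real A) := by
      intro m A
      have := hΛ.1 m
      have := hΛ'.1 m
      rw [measureReal_nnreal_smul_apply, measureReal_add_apply]
      norm_num
    refine ⟨fun m => (1 / 2 : ℝ≥0) • (Λ m + Λ' m), ⟨fun m => ?_, fun v => ?_, ?_⟩, ?_⟩
    · have := hΛ.1 m
      have := hΛ'.1 m
      constructor
      simp only [Measure.smul_apply, Measure.add_apply, measure_univ]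
      rw [ENNReal.smul_def, smul_eq_mul]
      norm_num
      exact ENNReal.inv_mul_cancel (by norm_num) (by norm_num)
    · simp only [Measure.smul_apply, Measure.add_apply]
      exact ((hΛ.2.1 v).add (hΛ'.2.1 v)).const_smul _
    · intro m m' A A' c h
      rw [hreal, hreal]
      have h1 := hΛ.2.2 m m' A A' c h
      have h2 := hΛ'.2.2 m m' A A' c h
      linarith
    · filter_upwards [hx, hy, Lp.coeFn_smul (1 / 2 : ℝ) (x + y), Lp.coeFn_add x y] with q h1 h2 h3 h4
      rw [h3, Pi.smul_apply, h4, Pi.add_apply, h1, h2]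
      simp only [f, hreal, smul_eq_mul]
  have hne : ∀ j, ∃ x ∈ C j, ‖x‖ ^ 2 ≤ ((measureUnivNNReal π : ℝ) ^ (2 : ℝ≥0∞).toReal⁻¹ * 1) ^ 2 := by
    intro j
    have hK : lam j ∈ K j := ⟨hprob j, hmeas j, fun m m' A A' c h => h j le_rfl⟩
    have hfm : Measurable (f (lam j)) :=
      measurable_from_prod_countable_left fun i => measurable_measure_family (hmeas j) (hS i)
    have hbound : ∀ q, ‖f (lam j) q‖ ≤ 1 := by
      intro q
      have := hprob j q.1
      rw [Real.norm_eq_abs, abs_of_nonneg measureReal_nonneg]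
      exact measureReal_le_one
    have hmem : MemLp (f (lam j)) 2 π :=
      MemLp.of_bound hfm.aestronglyMeasurable 1 (ae_of_all _ hbound)
    refine ⟨hmem.toLp _, ⟨lam j, hK, hmem.coeFn_toLp⟩, ?_⟩
    apply pow_le_pow_left₀ (norm_nonneg _)
    apply Lp.norm_le_of_ae_bound zero_le_one
    filter_upwards [hmem.coeFn_toLp] with q hq
    rw [hq]; exact hbound q
  obtain ⟨g, hg, hcauchy⟩ := exists_cauchy_of_midpoint C hCanti hmid _ hne
  obtain ⟨g₀, hg₀⟩ := cauchySeq_tendsto_of_complete hcauchy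
  obtain ⟨ns, hns, hae⟩ := (tendstoInMeasure_of_tendsto_Lp hg₀).exists_seq_tendsto_ae
  choose Λ hΛ hgΛ using hg
  have hK : ∀ j, Λ (ns j) ∈ K j := fun j => hKanti (hns.id_le j) (hΛ _)
  refine ⟨fun j => Λ (ns j), fun j => (hK j).1, fun j => (hK j).2.1, fun j => (hK j).2.2, ?_⟩
  have h1 : ∀ᵐ q ∂π, ∃ l, Tendsto (fun j => f (Λ (ns j)) q) atTop (𝓝 l) := by
    filter_upwards [hae, ae_all_iff.2 hgΛ] with q hq hq'
    refine ⟨g₀ q, ?_⟩
    simpa only [hq'] using hq
  rw [hπ, ae_toFinite] at h1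
  filter_upwards [Measure.ae_ae_of_ae_prod h1] with m hm
  exact Measure.ae_count_iff.1 hm

end meas

end Pool.Agent.Lib.MP_560012_lc
end

-- part Pool.Agent.Lib.MP_560012_lc.Core
section

/-!
An amenable conservative action with an equivariant field of trees has an equivariant field of at
most two ends.
-/

namespace Pool.Agent.Lib.MP_560012_lc

open MeasureTheory Filter Topology
open scoped ENNReal NNReal

lemma mem_br_equiv {V W : Type*} {G : SimpleGraph V} {G' : SimpleGraph W} (e : V ≃ W)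
    (h : ∀ a b, G.Adj a b ↔ G'.Adj (e a) (e b)) (x y z : V) :
    z ∈ Br G x y ↔ e z ∈ Br G' (e x) (e y) := by
  simp only [Br, Set.mem_ofPred_eq, reflTransGen_iff_ball]
  refine and_congr (h x y) (exists_congr fun L => ?_)
  refine mem_ball_equiv e (fun a b => and_congr (h a b) ?_) y L z
  exact (e.injective.ne_iff).symm

section count

variable {V : Type*} [MeasurableSpace V] [Countable V] [DiscreteMeasurableSpace V]
  {G : SimpleGraph V}

lemma sum_triple_le (hG : G.IsTree) (ρ : Measure V) [IsProbabilityMeasure ρ] {ι : Type*}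
    (F : Finset ι) (x y₁ y₂ y₃ : ι → V) (hx : Function.Injective x)
    (h : ∀ i ∈ F, y₁ i ≠ y₂ i ∧ y₁ i ≠ y₃ i ∧ y₂ i ≠ y₃ i) :
    ∑ i ∈ F, ρ.real (Br G (x i) (y₁ i)) * (ρ.real (Br G (x i) (y₂ i)) *
      ρ.real (Br G (x i) (y₃ i))) ≤ 1 := by
  have key := sum_measureReal_le_measureReal_univ (μ := ρ.prod (ρ.prod ρ)) (s := F)
    (t := fun i => Br G (x i) (y₁ i) ×ˢ (Br G (x i) (y₂ i) ×ˢ Br G (x i) (y₃ i)))
    (fun i _ => DiscreteMeasurableSpace.forall_measurableSet _) ?_
  · simpa only [measureReal_prod_prod, probReal_univ] using key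
  · intro i hi k hk hik
    have hne : x i ≠ x k := fun h => hik (hx h)
    obtain ⟨a, ha⟩ := Br.exists_mem hG.connected hne.symm
    obtain ⟨b, hb⟩ := Br.exists_mem hG.connected hne
    refine Set.disjoint_left.2 ?_
    rintro ⟨z₁, z₂, z₃⟩ ⟨h1, h2, h3⟩ ⟨h1', h2', h3'⟩
    have key : ∀ {z y y' : V}, z ∈ Br G (x i) y → z ∈ Br G (x k) y' → y = a ∨ y' = b := by
      intro z y y' hy hy'
      rcases Br.cover' hG ha hb z with h | h
      · exact Or.inl (Br.eq_of_mem hG.isAcyclic hy h)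
      · exact Or.inr (Br.eq_of_mem hG.isAcyclic hy' h)
    have k1 := key h1 h1'
    have k2 := key h2 h2'
    have k3 := key h3 h3'
    have hi' := h i hi
    have hk' := h k hk
    grind

omit [Countable V] in
lemma sum_own_le (hG : G.IsTree) (ρ : Measure V) [IsProbabilityMeasure ρ] {ι : Type*}
    (F : Finset ι) (x : ι → V) (E : ι → Finset V)
    (h : ∀ i ∈ F, ∀ k ∈ F, i ≠ k → ∃ a ∈ E i, x k ∈ Br G (x i) a) :
    ∑ i ∈ F, ρ.real (⋃ y ∈ E i, Br G (x i) y)ᶜ ≤ 1 := by
  have key := sum_measureReal_le_measureReal_univ (μ := ρ) (s := F)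
    (t := fun i => (⋃ y ∈ E i, Br G (x i) y)ᶜ)
    (fun i _ => DiscreteMeasurableSpace.forall_measurableSet _) ?_
  · simpa only [probReal_univ] using key
  · intro i hi k hk hik
    obtain ⟨a, haE, ha⟩ := h i hi k hk hik
    obtain ⟨b, hbE, hb⟩ := h k hk i hi hik.symm
    refine Set.disjoint_left.2 ?_
    intro z h1 h2
    rcases Br.cover' hG ha hb z with h | h
    · exact h1 (Set.mem_biUnion haE h)
    · exact h2 (Set.mem_biUnion hbE h)

end count

lemma measurable_eventually {M : Type*} [MeasurableSpace M] {p : ℕ → M → Prop}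
    (hp : ∀ j, Measurable (p j)) : Measurable fun m => ∀ᶠ j in atTop, p j m := by
  simp only [eventually_atTop]
  exact Measurable.exists fun _ => Measurable.forall fun j => measurable_const.imp (hp j)

theorem core {M V Γ : Type*} [MeasurableSpace M] [Countable V] [MeasurableSpace V]
    [DiscreteMeasurableSpace V] [Group Γ] [MulAction Γ V]
    (hfree : ∀ x : V, Function.Injective fun γ : Γ => γ • x)
    (μ : Measure M) [SFinite μ] (act : M → Γ → M)
    (hact : ∀ m γ, act (act m γ) γ⁻¹ = m)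
    (M₀ : Set M) (hM₀ : ∀ᵐ m ∂μ, m ∈ M₀) (hM₀act : ∀ m ∈ M₀, ∀ γ, act m γ ∈ M₀)
    (T : M → SimpleGraph V) (hTm : ∀ a b, Measurable fun m => (T m).Adj a b)
    (hTe : ∀ m γ a b, (T (act m γ)).Adj a b ↔ (T m).Adj (γ • a) (γ • b))
    (hTree : ∀ᵐ m ∂μ, (T m).IsTree)
    (hcons : ∀ W : Set M, MeasurableSet W → ∀ N : ℝ,
      (∀ᵐ m ∂μ, ∀ F : Finset Γ, (∀ γ ∈ F, act m γ ∈ W) → (F.card : ℝ) ≤ N) → μ W = 0)
    (lam : ℕ → M → Measure V) (hprob : ∀ n m, IsProbabilityMeasure (lam n m))
    (hmeas : ∀ n v, Measurable fun m => lam n m {v}) (c : ℝ)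
    (hR : ∀ m ∈ M₀, ∀ γ, ∃ n₀, ∀ n, n₀ ≤ n → ∀ A : Set V,
      (lam n (act m γ)).real ((fun z => γ • z) ⁻¹' A) ≤ c * (lam n m).real A) :
    ∃ O : M → V → V → Prop, (∀ a b, Measurable fun m => O m a b) ∧
      (∀ m ∈ M₀, ∀ γ a b, O (act m γ) a b ↔ O m (γ • a) (γ • b)) ∧
      (∀ m m', T m = T m' → (∃ C : ℝ, ∀ n A, (lam n m').real A ≤ C * (lam n m).real A) →
        ∀ a b, O m' a b → O m a b) ∧
      ∀ᵐ m ∂μ, EndLike (T m) (O m) := by
  classical
  obtain ⟨Λ, hΛp, hΛm, hdom, hconv⟩ := exists_convergent μ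
    (fun (i : V × V) m => Br (T m) i.1 i.2) (fun i v => measurable_mem_br hTm i.1 i.2 v)
    lam hprob hmeas
  -- transport of branches
  have hbr : ∀ m γ x y, Br (T (act m γ)) x y = (fun z => γ • z) ⁻¹' Br (T m) (γ • x) (γ • y) := by
    intro m γ x y
    ext z
    exact mem_br_equiv (MulAction.toPerm γ) (hTe m γ) x y z
  have hRΛ : ∀ m ∈ M₀, ∀ γ, ∀ᶠ j in atTop, ∀ A : Set V,
      (Λ j (act m γ)).real ((fun z => γ • z) ⁻¹' A) ≤ c * (Λ j m).real A := by
    intro m hm γ
    obtain ⟨n₀, hn₀⟩ := hR m hm γ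
    filter_upwards [eventually_ge_atTop n₀] with j hj A
    exact hdom j _ _ _ _ c fun n hn => hn₀ n (hj.trans hn) A
  let P : ℕ → M → V → V → ℝ := fun j m x y => (Λ j m).real (Br (T m) x y)
  have hPm : ∀ j x y, Measurable fun m => P j m x y := fun j x y =>
    measurable_measure_family (hΛm j) (measurable_mem_br hTm x y)
  have hP0 : ∀ j m x y, 0 ≤ P j m x y := fun j m x y => measureReal_nonneg
  have hPR : ∀ m ∈ M₀, ∀ γ, ∀ᶠ j in atTop, ∀ x y,
      P j (act m γ) x y ≤ c * P j m (γ • x) (γ • y) := by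
    intro m hm γ
    filter_upwards [hRΛ m hm γ] with j hj x y
    simp only [P]
    rw [hbr]
    exact hj _
  let O : M → V → V → Prop := fun m x y => ¬ Tendsto (fun j => P j m x y) atTop (𝓝 0)
  have hsq : ∀ {u v : ℕ → ℝ} {C : ℝ}, (∀ j, 0 ≤ u j) → (∀ᶠ j in atTop, u j ≤ C * v j) →
      Tendsto v atTop (𝓝 0) → Tendsto u atTop (𝓝 0) := by
    intro u v C h0 h1 h2
    refine squeeze_zero' (Eventually.of_forall h0) h1 ?_
    simpa using h2.const_mul C
  have hO1 : ∀ m ∈ M₀, ∀ γ a b, O (act m γ) a b → O m (γ • a) (γ • b) := by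
    intro m hm γ a b h h'
    exact h (hsq (hP0 · _ _ _) ((hPR m hm γ).mono fun j hj => hj a b) h')
  -- the first null set: three branches of positive mass
  have hW3 : ∀ (x : V) (k : ℕ), ∀ᵐ m ∂μ, ¬ ∃ y₁ y₂ y₃, (y₁ ≠ y₂ ∧ y₁ ≠ y₃ ∧ y₂ ≠ y₃) ∧
      ∀ᶠ j in atTop, 1 / ((k : ℝ) + 1) ≤ P j m x y₁ * (P j m x y₂ * P j m x y₃) := by
    intro x k
    rw [ae_iff]
    simp only [not_not]
    refine hcons _ ?_ (|c| ^ 3 * ((k : ℝ) + 1)) ?_
    · refine Measurable.setOf ?_
      refine Measurable.exists fun y₁ => Measurable.exists fun y₂ => Measurable.exists fun y₃ =>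
        measurable_const.and (measurable_eventually fun j => ?_)
      exact measurableSet_setOfPred.1
        (measurableSet_le measurable_const ((hPm j _ _).mul ((hPm j _ _).mul (hPm j _ _))))
    · filter_upwards [hM₀, hTree] with m hm htree F hF
      have : Nonempty V := ⟨x⟩
      choose! y₁ y₂ y₃ hy hev using hF
      have h1 : ∀ᶠ j in atTop, ∀ γ ∈ F, 1 / ((k : ℝ) + 1) ≤ |c| ^ 3 *
          (P j m (γ • x) (γ • y₁ γ) * (P j m (γ • x) (γ • y₂ γ) * P j m (γ • x) (γ • y₃ γ))) := by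
        rw [eventually_all_finset]
        intro γ hγ
        filter_upwards [hev γ hγ, hPR m hm γ] with j h1 h2
        refine h1.trans ?_
        have a : ∀ y, P j (act m γ) x y ≤ |c| * P j m (γ • x) (γ • y) := fun y =>
          (h2 x y).trans (mul_le_mul_of_nonneg_right (le_abs_self c) (hP0 _ _ _ _))
        have hc := abs_nonneg c
        calc _ ≤ (|c| * P j m (γ • x) (γ • y₁ γ)) * ((|c| * P j m (γ • x) (γ • y₂ γ)) *
              (|c| * P j m (γ • x) (γ • y₃ γ))) := by
              apply mul_le_mul (a _) _ (mul_nonneg (hP0 _ _ _ _) (hP0 _ _ _ _))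
                (mul_nonneg hc (hP0 _ _ _ _))
              exact mul_le_mul (a _) (a _) (hP0 _ _ _ _) (mul_nonneg hc (hP0 _ _ _ _))
          _ = _ := by ring
      obtain ⟨j, hj⟩ := h1.exists
      have := hΛp j m
      have h2 := sum_triple_le htree (Λ j m) F (fun γ => γ • x) (fun γ => γ • y₁ γ)
        (fun γ => γ • y₂ γ) (fun γ => γ • y₃ γ) (hfree x) (fun γ hγ => by
          simpa only [ne_eq, smul_left_cancel_iff] using hy γ hγ)
      have h3 := Finset.sum_le_sum hj
      rw [Finset.sum_const, ← Finset.mul_sum, nsmul_eq_mul] at h3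
      have h4 : (F.card : ℝ) * (1 / ((k : ℝ) + 1)) ≤ |c| ^ 3 :=
        h3.trans (mul_le_of_le_one_right (by positivity) h2)
      rw [mul_one_div, div_le_iff₀ (by positivity)] at h4
      exact h4
  -- the second null set: mass sitting at a vertex
  have hW1 : ∀ (x : V) (k : ℕ), ∀ᵐ m ∂μ, ¬ ∀ E : Finset V,
      ∀ᶠ j in atTop, 1 / ((k : ℝ) + 1) ≤ (Λ j m).real (⋃ y ∈ E, Br (T m) x y)ᶜ := by
    intro x k
    rw [ae_iff]
    simp only [not_not]
    refine hcons _ ?_ (|c| * ((k : ℝ) + 1)) ?_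
    · refine Measurable.setOf ?_
      refine Measurable.forall fun E => measurable_eventually fun j => ?_
      refine measurableSet_setOfPred.1
        (measurableSet_le measurable_const (measurable_measure_family (hΛm j) fun v => ?_))
      simp only [Set.mem_compl_iff, Set.mem_iUnion]
      exact (Measurable.exists fun y => Measurable.exists fun _ => measurable_mem_br hTm x y v).not
    · filter_upwards [hM₀, hTree] with m hm htree F hF
      have hdir : ∀ a b : V, ∃ y, b ≠ a → b ∈ Br (T m) a y := by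
        intro a b
        by_cases h : b = a
        · exact ⟨a, fun h' => absurd h h'⟩
        · obtain ⟨y, hy⟩ := Br.exists_mem htree.connected h
          exact ⟨y, fun _ => hy⟩
      choose dir hdir using hdir
      let E : Γ → Finset V := fun γ => F.image fun γ' => dir (γ • x) (γ' • x)
      have h1 : ∀ᶠ j in atTop, ∀ γ ∈ F, 1 / ((k : ℝ) + 1) ≤ |c| *
          (Λ j m).real (⋃ y ∈ E γ, Br (T m) (γ • x) y)ᶜ := by
        rw [eventually_all_finset]
        intro γ hγ
        filter_upwards [hF γ hγ ((E γ).image fun y => γ⁻¹ • y), hRΛ m hm γ] with j h1 h2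
        refine h1.trans (le_trans (le_of_eq ?_) ((h2 _).trans
          (mul_le_mul_of_nonneg_right (le_abs_self c) measureReal_nonneg)))
        congr 1
        ext z
        simp [hbr]
      obtain ⟨j, hj⟩ := h1.exists
      have := hΛp j m
      have h2 := sum_own_le htree (Λ j m) F (fun γ => γ • x) E (fun i _ k hk hik =>
        ⟨_, Finset.mem_image_of_mem _ hk, hdir _ _ fun h => hik (hfree x h).symm⟩)
      have h3 := Finset.sum_le_sum hj
      rw [Finset.sum_const, ← Finset.mul_sum, nsmul_eq_mul] at h3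
      have h4 : (F.card : ℝ) * (1 / ((k : ℝ) + 1)) ≤ |c| :=
        h3.trans (mul_le_of_le_one_right (by positivity) h2)
      rw [mul_one_div, div_le_iff₀ (by positivity)] at h4
      exact h4
  refine ⟨O, fun a b => ?_, fun m hm γ a b => ⟨hO1 m hm γ a b, fun h => ?_⟩, ?_, ?_⟩
  · exact (measurableSet_setOfPred.1 (measurableSet_tendsto _ fun j => hPm j a b)).not
  · have := hO1 (act m γ) (hM₀act m hm γ) γ⁻¹ (γ • a) (γ • b)
    rw [hact, inv_smul_smul, inv_smul_smul] at this
    exact this h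
  · rintro m m' hT ⟨C, hC⟩ a b h h'
    refine h (hsq (C := C) (hP0 · _ _ _) (Eventually.of_forall fun j => ?_) h')
    simp only [P, ← hT]
    exact hdom j _ _ _ _ C fun n _ => hC n _
  · filter_upwards [hTree, hconv, ae_all_iff.2 fun x => ae_all_iff.2 (hW3 x),
      ae_all_iff.2 fun x => ae_all_iff.2 (hW1 x)] with m htree hc h3 h1
    have := fun j => hΛp j m
    have hlim : ∀ x y, O m x y → ∃ l, 0 < l ∧ Tendsto (fun j => P j m x y) atTop (𝓝 l) := by
      intro x y h
      obtain ⟨l, hl⟩ := hc (x, y)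
      refine ⟨l, lt_of_le_of_ne (ge_of_tendsto' hl fun j => hP0 j m x y) ?_, hl⟩
      rintro rfl
      exact h hl
    have hsmall : ∀ {u : ℕ → ℝ} {l : ℝ}, 0 < l → Tendsto u atTop (𝓝 l) →
        ∃ k : ℕ, ∀ᶠ j in atTop, 1 / ((k : ℝ) + 1) ≤ u j := by
      intro u l hl hu
      obtain ⟨k, hk⟩ := exists_nat_one_div_lt hl
      exact ⟨k, (hu.eventually (lt_mem_nhds hk)).mono fun j hj => hj.le⟩
    -- lower bound for the mass outside finitely many branches
    have hout : ∀ (x : V) (A : Set V) (l : ℝ), 0 < l →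
        Tendsto (fun j => (Λ j m).real A) atTop (𝓝 l) →
        ∃ z, O m x z ∧ ¬ Disjoint A (Br (T m) x z) := by
      intro x A l hl hA
      by_contra hcon
      push Not at hcon
      obtain ⟨k, hk⟩ := exists_nat_one_div_lt hl
      refine h1 x k fun E => ?_
      have ht : Tendsto (fun j => (Λ j m).real A - ∑ y ∈ E.filter (fun y => ¬ O m x y),
          P j m x y) atTop (𝓝 (l - ∑ y ∈ E.filter (fun y => ¬ O m x y), 0)) := by
        refine hA.sub (tendsto_finsetSum _ fun y hy => ?_)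
        exact not_not.1 (Finset.mem_filter.1 hy).2
      rw [Finset.sum_const_zero, sub_zero] at ht
      filter_upwards [ht.eventually (lt_mem_nhds hk)] with j hj
      refine hj.le.trans ?_
      rw [sub_le_iff_le_add]
      refine le_trans (measureReal_mono (s₂ := (⋃ y ∈ E, Br (T m) x y)ᶜ ∪
        ⋃ y ∈ E.filter (fun y => ¬ O m x y), Br (T m) x y) ?_) ?_
      · intro z hz
        by_cases hz' : z ∈ ⋃ y ∈ E, Br (T m) x y
        · right
          obtain ⟨y, hyE, hy⟩ := Set.mem_iUnion₂.1 hz'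
          refine Set.mem_iUnion₂.2 ⟨y, Finset.mem_filter.2 ⟨hyE, fun hO => ?_⟩, hy⟩
          exact Set.disjoint_left.1 (hcon y hO) hz hy
        · exact Or.inl hz'
      · exact (measureReal_union_le _ _).trans
          (add_le_add le_rfl (measureReal_biUnion_finset_le _ _))
    refine ⟨htree, fun x y h => ?_, fun x => ?_, fun x y₁ y₂ y₃ a₁ a₂ a₃ => ?_,
      fun x y z h hxy hxz h' => ?_, fun x y h => ?_⟩
    · by_contra hn
      apply h
      simp only [P, Br.eq_empty hn, measureReal_empty]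
      exact tendsto_const_nhds
    · obtain ⟨z, hz, -⟩ := hout x Set.univ 1 one_pos (by
        simp only [probReal_univ]; exact tendsto_const_nhds)
      exact ⟨z, hz⟩
    · by_contra hcon
      push Not at hcon
      obtain ⟨l₁, p₁, t₁⟩ := hlim _ _ a₁
      obtain ⟨l₂, p₂, t₂⟩ := hlim _ _ a₂
      obtain ⟨l₃, p₃, t₃⟩ := hlim _ _ a₃
      obtain ⟨k, hk⟩ := hsmall (mul_pos p₁ (mul_pos p₂ p₃)) (t₁.mul (t₂.mul t₃))
      exact h3 x k ⟨y₁, y₂, y₃, hcon, hk⟩
    · refine h (hsq (C := 1) (hP0 · _ _ _) (Eventually.of_forall fun j => ?_) h')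
      rw [one_mul]
      exact measureReal_mono (Br.mono htree hxy hxz.symm)
    · obtain ⟨l, hl, t⟩ := hlim _ _ h
      obtain ⟨z, hz, hdis⟩ := hout y (Br (T m) x y) l hl t
      refine ⟨z, ?_, hz⟩
      rintro rfl
      exact hdis (Set.disjoint_left.2 fun w h1 h2 => Br.not_both htree.isAcyclic h1 h2)

end Pool.Agent.Lib.MP_560012_lc
end

-- part Pool.Agent.Lib.MP_560012_lc.Kappa
section

/-!
A heavy-tailed measure on real matrices, a measurable fundamental domain for `SL(3, ℤ)`, and the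
resulting asymptotically equivariant random elements of `SL(3, ℤ)`.
-/

namespace Pool.Agent.Lib.MP_560012_lc

open MeasureTheory Filter Topology Matrix
open scoped ENNReal NNReal

abbrev R3 := Fin 3 → ℝ
abbrev Mat := Fin 3 → Fin 3 → ℝ
abbrev M3 := Matrix (Fin 3) (Fin 3) ℝ
abbrev SL3 := Matrix.SpecialLinearGroup (Fin 3) ℤ
abbrev GL3 := Matrix.GeneralLinearGroup (Fin 3) ℤ

/-- Right multiplication by a matrix. -/
def rmul (U : M3) (ω : Mat) : Mat := fun i => ω i ᵥ* U

lemma of_rmul (U : M3) (ω : Mat) : Matrix.of (rmul U ω) = Matrix.of ω * U := by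
  ext i j; rfl

lemma rmul_rmul (U U' : M3) (ω : Mat) : rmul U (rmul U' ω) = rmul (U' * U) ω := by
  funext i; simp [rmul]

lemma rmul_apply (U : M3) (ω : Mat) (i j : Fin 3) : rmul U ω i j = ∑ k, ω i k * U k j := rfl

lemma det_rmul (U : M3) (ω : Mat) :
    (Matrix.of (rmul U ω)).det = (Matrix.of ω).det * U.det := by
  rw [of_rmul, Matrix.det_mul]

lemma measurePreserving_vecMul {U : M3} (hU : |U.det| = 1) :
    MeasurePreserving (fun r : R3 => r ᵥ* U) := by
  have h0 : Uᵀ.det ≠ 0 := by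
    rw [Matrix.det_transpose]; intro h; rw [h] at hU; simp at hU
  have h := Real.map_matrix_volume_pi_eq_smul_volume_pi h0
  have he : (fun r : R3 => r ᵥ* U) = Matrix.toLin' Uᵀ := by
    funext r; simp [Matrix.mulVec_transpose]
  refine ⟨by rw [he]; exact (LinearMap.continuous_of_finiteDimensional _).measurable, ?_⟩
  rw [he, h, Matrix.det_transpose, abs_inv, hU]; simp

lemma measurePreserving_rmul {U : M3} (hU : |U.det| = 1) : MeasurePreserving (rmul U) :=
  volume_preserving_pi fun _ => measurePreserving_vecMul hU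

lemma norm_rmul_le {U : M3} {B : ℝ} (hB : ∀ i j, |U i j| ≤ B) (ω : Mat) :
    ‖rmul U ω‖ ≤ 3 * B * ‖ω‖ := by
  have hB0 : 0 ≤ B := (abs_nonneg _).trans (hB 0 0)
  refine (pi_norm_le_iff_of_nonneg (by positivity)).2 fun i =>
    (pi_norm_le_iff_of_nonneg (by positivity)).2 fun j => ?_
  rw [rmul_apply, Real.norm_eq_abs]
  refine (Finset.abs_sum_le_sum_abs _ _).trans ?_
  have : ∀ k, |ω i k * U k j| ≤ B * ‖ω‖ := fun k => by
    rw [abs_mul, mul_comm]
    refine mul_le_mul (hB k j) ?_ (abs_nonneg _) hB0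
    exact (norm_le_pi_norm (ω i) k).trans (norm_le_pi_norm ω i)
  refine (Finset.sum_le_sum fun k _ => this k).trans ?_
  simp; linarith

lemma continuous_det_of : Continuous fun ω : Mat => (Matrix.of ω).det :=
  Continuous.matrix_det (A := fun ω : Mat => Matrix.of ω) continuous_id

theorem exists_nu : ∃ ν : Measure Mat, IsProbabilityMeasure ν ∧
    (∀ᵐ ω ∂ν, (Matrix.of ω).det ≠ 0) ∧
    ∀ (U : M3) (B : ℝ), |U.det| = 1 → 1 ≤ B → (∀ i j, |U i j| ≤ B) → ∀ A, MeasurableSet A →
      ν.real (rmul U ⁻¹' A) ≤ (3 * B) ^ 10 * ν.real A := by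
  let S : Set Mat := {ω | (Matrix.of ω).det ≠ 0}
  have hSo : IsOpen S := isOpen_ne_fun continuous_det_of continuous_const
  let ρ : Mat → ℝ≥0∞ := S.indicator fun ω => ENNReal.ofReal (((1 + ‖ω‖) ^ 10)⁻¹)
  have hρm : Measurable ρ := Measurable.indicator (by fun_prop) hSo.measurableSet
  let ν₀ : Measure Mat := volume.withDensity ρ
  have hfin : ν₀ Set.univ ≠ ∞ := by
    have h := finite_integral_one_add_norm (E := Mat) (μ := volume) (r := 10)
      (by simp [Module.finrank_pi_fintype]; norm_num)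
    refine ne_top_of_le_ne_top h.ne ?_
    simp only [ν₀, withDensity_apply _ MeasurableSet.univ, Measure.restrict_univ]
    refine lintegral_mono fun ω => (Set.indicator_le_self _ _ ω).trans (le_of_eq ?_)
    rw [Real.rpow_neg (by positivity)]
    norm_cast
  have hpos : ν₀ Set.univ ≠ 0 := by
    simp only [ν₀, withDensity_apply _ MeasurableSet.univ, Measure.restrict_univ]
    intro h
    rw [lintegral_eq_zero_iff hρm] at h
    have h1 : ∀ᵐ ω : Mat, ω ∉ S := by
      filter_upwards [h] with ω hω hS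
      simp only [ρ, Set.indicator_of_mem hS, Pi.zero_apply, ENNReal.ofReal_eq_zero] at hω
      exact absurd hω (not_le.2 (by positivity))
    have h2 : volume S = 0 := measure_eq_zero_iff_ae_notMem.2 h1
    refine (hSo.measure_pos volume ⟨(1 : M3), ?_⟩).ne' h2
    change (1 : M3).det ≠ 0
    simp
  have hcmp : ∀ (U : M3) (B : ℝ), |U.det| = 1 → 1 ≤ B → (∀ i j, |U i j| ≤ B) →
      ∀ A, MeasurableSet A → ν₀ (rmul U ⁻¹' A) ≤ ENNReal.ofReal ((3 * B) ^ 10) * ν₀ A := by
    intro U B hU hB hUB A hA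
    have hmp := measurePreserving_rmul hU
    simp only [ν₀]
    rw [withDensity_apply _ (hmp.measurable hA), withDensity_apply _ hA,
      ← hmp.setLIntegral_comp_preimage hA hρm, ← lintegral_const_mul' _ _ ENNReal.ofReal_ne_top]
    refine lintegral_mono fun ω => ?_
    by_cases hω : ω ∈ S
    · have hω' : rmul U ω ∈ S := by
        change (Matrix.of (rmul U ω)).det ≠ 0
        rw [det_rmul]
        refine mul_ne_zero hω fun h => ?_
        rw [h] at hU; simp at hU
      simp only [ρ, Set.indicator_of_mem hω, Set.indicator_of_mem hω']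
      rw [← ENNReal.ofReal_mul (by positivity)]
      apply ENNReal.ofReal_le_ofReal
      rw [← div_eq_mul_inv, le_div_iff₀ (by positivity), inv_mul_le_iff₀ (by positivity),
        ← mul_pow]
      apply pow_le_pow_left₀ (by positivity)
      have := norm_rmul_le hUB ω
      have := norm_nonneg ω
      nlinarith
    · simp only [ρ, Set.indicator_of_notMem hω]
      exact zero_le
  refine ⟨(ν₀ Set.univ)⁻¹ • ν₀, ⟨?_⟩, ?_, ?_⟩
  · simp only [Measure.smul_apply, smul_eq_mul]
    exact ENNReal.inv_mul_cancel hpos hfin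
  · refine Measure.ae_smul_measure ?_ _
    simp only [ν₀]
    rw [ae_withDensity_iff hρm]
    refine ae_of_all _ fun ω hω => ?_
    by_contra h
    exact hω (Set.indicator_of_notMem (s := S) (fun h' => h' h) _)
  · intro U B hU hB hUB A hA
    rw [measureReal_ennreal_smul_apply, measureReal_ennreal_smul_apply, mul_left_comm]
    refine mul_le_mul_of_nonneg_left ?_ ENNReal.toReal_nonneg
    have hA' : ν₀ A ≠ ∞ := ne_top_of_le_ne_top hfin (measure_mono (Set.subset_univ _))
    have := ENNReal.toReal_mono (ENNReal.mul_ne_top ENNReal.ofReal_ne_top hA')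
      (hcmp U B hU hB hUB A hA)
    rwa [ENNReal.toReal_mul, ENNReal.toReal_ofReal (by positivity)] at this

/-- An integer matrix as a real matrix. -/
def toR (A : Matrix (Fin 3) (Fin 3) ℤ) : M3 := (Int.castRingHom ℝ).mapMatrix A

lemma toR_apply (A : Matrix (Fin 3) (Fin 3) ℤ) (i j : Fin 3) : toR A i j = (A i j : ℝ) := rfl

lemma toR_mul (A B : Matrix (Fin 3) (Fin 3) ℤ) : toR (A * B) = toR A * toR B := map_mul _ _ _

lemma toR_one : toR 1 = 1 := map_one _

lemma det_toR (A : Matrix (Fin 3) (Fin 3) ℤ) : (toR A).det = (A.det : ℝ) :=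
  ((Int.castRingHom ℝ).map_det A).symm

lemma toR_injective : Function.Injective toR := by
  intro A B h
  ext i j
  have := congrFun (congrFun h i) j
  simpa [toR_apply] using this

lemma det_toR_SL (γ : SL3) : (toR γ).det = 1 := by rw [det_toR, γ.det_coe]; simp

lemma finite_bounded (C : ℝ) : {γ : SL3 | ∀ i j, |toR γ i j| ≤ C}.Finite := by
  obtain ⟨N, hN⟩ := exists_int_gt C
  have h : (Set.Icc (fun _ _ => -N) (fun _ _ => N) : Set (Fin 3 → Fin 3 → ℤ)).Finite :=
    Set.finite_Icc _ _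
  refine (h.preimage (f := fun γ : SL3 => fun i j => γ.1 i j) ?_).subset ?_
  · intro a _ b _ hab
    ext i j
    exact congrFun (congrFun hab i) j
  · intro γ hγ
    have key : ∀ i j, |γ.1 i j| ≤ N := fun i j => by
      have h1 := (hγ i j).trans hN.le
      rw [toR_apply] at h1
      exact_mod_cast h1
    exact ⟨fun i j => (abs_le.1 (key i j)).1, fun i j => (abs_le.1 (key i j)).2⟩

lemma exists_entry_bound (U : M3) : ∃ B : ℝ, 1 ≤ B ∧ ∀ i j, |U i j| ≤ B :=
  ⟨1 + ‖(fun i j => U i j : Mat)‖, by simp, fun i j =>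
    le_add_of_nonneg_of_le zero_le_one
      ((norm_le_pi_norm (U i) j).trans (norm_le_pi_norm (fun i j => U i j : Mat) i))⟩

lemma finite_sublevel {g : Mat} (hg : (Matrix.of g).det ≠ 0) (R : ℝ) :
    {γ : SL3 | ‖rmul (toR γ) g‖ ≤ R}.Finite := by
  obtain ⟨B, hB1, hB⟩ := exists_entry_bound (Matrix.of g)⁻¹
  refine (finite_bounded (3 * (B * R))).subset fun γ hγ i j => ?_
  have h1 : toR γ = (Matrix.of g)⁻¹ * Matrix.of (rmul (toR γ) g) := by
    rw [of_rmul, ← Matrix.mul_assoc, Matrix.nonsing_inv_mul _ (isUnit_iff_ne_zero.2 hg),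
      Matrix.one_mul]
  rw [h1, Matrix.mul_apply]
  refine (Finset.abs_sum_le_sum_abs _ _).trans ?_
  have : ∀ k, |(Matrix.of g)⁻¹ i k * Matrix.of (rmul (toR γ) g) k j| ≤ B * R := fun k => by
    rw [abs_mul]
    refine mul_le_mul (hB i k) ?_ (abs_nonneg _) (by linarith)
    exact ((norm_le_pi_norm (rmul (toR γ) g k) j).trans (norm_le_pi_norm _ k)).trans hγ
  refine (Finset.sum_le_sum fun k _ => this k).trans ?_
  simp

lemma measurable_rmul {α : Type*} [MeasurableSpace α] {U : α → M3} {ω : α → Mat}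
    (hU : ∀ i j, Measurable fun a => U a i j) (hω : Measurable ω) :
    Measurable fun a => rmul (U a) (ω a) := by
  refine measurable_pi_lambda _ fun i => measurable_pi_lambda _ fun j => ?_
  simp only [rmul_apply]
  refine Finset.measurable_sum _ fun k _ => Measurable.mul ?_ (hU k j)
  exact (measurable_pi_apply k).comp ((measurable_pi_apply i).comp hω)

instance : Countable SL3 :=
  Function.Injective.countable (f := fun γ : SL3 => (fun i j => γ.1 i j : Fin 3 → Fin 3 → ℤ))
    fun a b hab => by ext i j; exact congrFun (congrFun hab i) j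

instance : Countable GL3 :=
  Function.Injective.countable (f := fun γ : GL3 => (fun i j => γ.1 i j : Fin 3 → Fin 3 → ℤ))
    fun a b hab => by ext i j; exact congrFun (congrFun hab i) j

theorem exists_sigma : ∃ σ : Mat → SL3, (∀ γ, MeasurableSet (σ ⁻¹' {γ})) ∧
    ∀ g, (Matrix.of g).det ≠ 0 → ∀ γ : SL3, σ (rmul (toR γ) g) = γ⁻¹ * σ g := by
  classical
  obtain ⟨φ, hφ⟩ := exists_measurableEmbedding_real Mat
  let key : Mat → ℝ ×ₗ ℝ := fun g => toLex (‖g‖, φ g)
  let D : Set Mat := {g | (Matrix.of g).det ≠ 0 ∧ ∀ γ : SL3, key g ≤ key (rmul (toR γ) g)}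
  have hrm : ∀ γ : SL3, Measurable (rmul (toR γ)) := fun γ =>
    measurable_rmul (fun _ _ => measurable_const) measurable_id
  have hD : MeasurableSet D := by
    refine Measurable.setOf (Measurable.and ?_ (Measurable.forall fun γ => ?_))
    · exact measurableSet_setOfPred.1
        (isOpen_ne_fun continuous_det_of continuous_const).measurableSet
    · simp only [key, Prod.Lex.toLex_le_toLex]
      have h1 : Measurable fun g : Mat => ‖rmul (toR γ) g‖ := (hrm γ).norm
      refine Measurable.or (measurableSet_setOfPred.1 (measurableSet_lt measurable_norm h1))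
        (Measurable.and (measurableSet_setOfPred.1 (measurableSet_eq_fun measurable_norm h1))
          (measurableSet_setOfPred.1 (measurableSet_le hφ.measurable
            (hφ.measurable.comp (hrm γ)))))
  have hmul : ∀ (γ γ' : SL3) g, rmul (toR γ') (rmul (toR γ) g) = rmul (toR (γ * γ' : SL3)) g := by
    intro γ γ' g
    rw [rmul_rmul, Matrix.SpecialLinearGroup.coe_mul, toR_mul]
  have hdet : ∀ (γ : SL3) g, (Matrix.of (rmul (toR γ) g)).det = (Matrix.of g).det := by
    intro γ g; rw [det_rmul, det_toR_SL, mul_one]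
  have hex : ∀ g, (Matrix.of g).det ≠ 0 → ∃ γ : SL3, rmul (toR γ) g ∈ D := by
    intro g hg
    obtain ⟨γ, hγ, hmin⟩ := Set.exists_min_image _ (fun γ : SL3 => key (rmul (toR γ) g))
      (finite_sublevel hg ‖rmul (toR (1 : SL3)) g‖) ⟨1, Set.mem_ofPred_eq ▸ le_refl _⟩
    refine ⟨γ, by rwa [hdet], fun γ' => ?_⟩
    rw [hmul]
    by_cases h : ‖rmul (toR (γ * γ' : SL3)) g‖ ≤ ‖rmul (toR (1 : SL3)) g‖
    · exact hmin _ h
    · simp only [key, Prod.Lex.toLex_le_toLex]
      exact Or.inl (lt_of_le_of_lt hγ (not_le.1 h))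
  have huniq : ∀ g (γ γ' : SL3), rmul (toR γ) g ∈ D → rmul (toR γ') g ∈ D → γ = γ' := by
    intro g γ γ' h h'
    have a1 := h.2 (γ⁻¹ * γ')
    have a2 := h'.2 (γ'⁻¹ * γ)
    rw [hmul, mul_inv_cancel_left] at a1 a2
    have a3 := le_antisymm a1 a2
    simp only [key, toLex_inj, Prod.mk.injEq] at a3
    have a4 := congrArg Matrix.of (hφ.injective a3.2)
    rw [of_rmul, of_rmul] at a4
    have hg : (Matrix.of g).det ≠ 0 := by rw [← hdet γ]; exact h.1
    have a5 := congrArg (fun X => (Matrix.of g)⁻¹ * X) a4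
    simp only [← Matrix.mul_assoc, Matrix.nonsing_inv_mul _ (isUnit_iff_ne_zero.2 hg),
      Matrix.one_mul] at a5
    exact Subtype.ext (toR_injective a5)
  let σ : Mat → SL3 := fun g => if h : ∃ γ : SL3, rmul (toR γ) g ∈ D then h.choose else 1
  have hσ : ∀ g, (∃ γ : SL3, rmul (toR γ) g ∈ D) → rmul (toR (σ g)) g ∈ D := by
    intro g h
    simp only [σ, dif_pos h]
    exact h.choose_spec
  refine ⟨σ, fun γ => ?_, fun g hg γ => ?_⟩
  · have : σ ⁻¹' {γ} = {g | rmul (toR γ) g ∈ D ∨ (γ = 1 ∧ ¬ ∃ γ' : SL3, rmul (toR γ') g ∈ D)} := by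
      ext g
      simp only [Set.mem_preimage, Set.mem_singleton_iff, Set.mem_ofPred_eq]
      by_cases h : ∃ γ' : SL3, rmul (toR γ') g ∈ D
      · simp only [h, not_true, and_false, or_false]
        exact ⟨fun h' => h' ▸ hσ g h, fun h' => huniq g _ _ (hσ g h) h'⟩
      · simp only [σ, dif_neg h]
        exact ⟨fun h' => Or.inr ⟨h'.symm, h⟩, fun h' => h'.elim (fun h' => absurd ⟨γ, h'⟩ h)
          fun h' => h'.1.symm⟩
    rw [this]
    have hm : ∀ γ' : SL3, Measurable fun g => rmul (toR γ') g ∈ D := fun γ' =>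
      measurableSet_setOfPred.1 (hrm γ' hD)
    exact Measurable.setOf ((hm γ).or (measurable_const.and (Measurable.exists hm).not))
  · refine huniq (rmul (toR γ) g) _ _ (hσ _ (hex _ (by rwa [hdet]))) ?_
    rw [hmul, mul_inv_cancel_left]
    exact hσ g (hex g hg)

end Pool.Agent.Lib.MP_560012_lc
end
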