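import Mathlib
import Pool.Agent.Lib.MP_560012_lc.Kappa

-- part Pool.Agent.Lib.MP_560012_lc.Geo
section

/-!
The action of `SL(3, ℤ)` on pairs of row vectors: it preserves Lebesgue measure, is conservative
and is amenable.
-/

namespace Pool.Agent.Lib.MP_560012_lc

open MeasureTheory Filter Topology Matrix
open scoped ENNReal NNReal

abbrev MM := R3 × R3

/-- The right action of `SL(3, ℤ)` on pairs of row vectors. -/
def act (m : MM) (γ : SL3) : MM := (m.1 ᵥ* toR γ, m.2 ᵥ* toR γ)

/-- The normal vector of a pair of row vectors. -/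
def vv (m : MM) : R3 := m.1 ⨯₃ m.2

/-- The left action of two by two matrices on pairs of row vectors. -/
def lmul (a b c d : ℝ) (m : MM) : MM := (a • m.1 + b • m.2, c • m.1 + d • m.2)

lemma act_act (m : MM) (γ γ' : SL3) : act (act m γ) γ' = act m (γ * γ') := by
  simp [act, toR_mul]

lemma act_one (m : MM) : act m 1 = m := by simp [act, toR_one]

lemma act_act_inv (m : MM) (γ : SL3) : act (act m γ) γ⁻¹ = m := by
  rw [act_act, mul_inv_cancel, act_one]

lemma mulVec_cross (A : M3) (r r' : R3) :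
    A *ᵥ ((r ᵥ* A) ⨯₃ (r' ᵥ* A)) = A.det • (r ⨯₃ r') := by
  ext i
  fin_cases i <;>
    simp [cross_apply, Matrix.mulVec, Matrix.vecMul, dotProduct, Fin.sum_univ_three,
      Matrix.det_fin_three] <;> ring

lemma mulVec_vv_act (m : MM) (γ : SL3) : toR γ *ᵥ vv (act m γ) = vv m := by
  simp only [vv, act, mulVec_cross, det_toR_SL, one_smul]

lemma vv_act_ne {m : MM} (hm : vv m ≠ 0) (γ : SL3) : vv (act m γ) ≠ 0 := by
  intro h
  apply hm
  rw [← mulVec_vv_act m γ, h, Matrix.mulVec_zero]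

lemma vv_lmul (a b c d : ℝ) (m : MM) : vv (lmul a b c d m) = (a * d - b * c) • vv m := by
  ext i
  fin_cases i <;> simp [vv, lmul, cross_apply] <;> ring

lemma measurePreserving_act (γ : SL3) : MeasurePreserving (fun m : MM => act m γ) :=
  have h : |(toR γ).det| = 1 := by rw [det_toR_SL, abs_one]
  (measurePreserving_vecMul h).prod (measurePreserving_vecMul h)

lemma continuous_vv : Continuous vv := by
  refine continuous_pi fun i => ?_
  fin_cases i <;> simp [vv, cross_apply] <;> fun_prop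

lemma ae_dot_vv_ne {b : R3} (hb : b ≠ 0) : ∀ᵐ m : MM, b ⬝ᵥ vv m ≠ 0 := by
  have hmeas : MeasurableSet {m : MM | b ⬝ᵥ vv m ≠ 0} :=
    (isOpen_ne_fun (continuous_const.dotProduct continuous_vv) continuous_const).measurableSet
  rw [Measure.volume_eq_prod, Measure.ae_prod_iff_ae_ae hmeas]
  have h1 : ∀ᵐ r : R3, b ⨯₃ r ≠ 0 := by
    have : volume ((LinearMap.ker (crossProduct b) : Submodule ℝ R3) : Set R3) = 0 := by
      apply Measure.addHaar_submodule
      intro h
      apply hb
      have h0 : ∀ r, b ⨯₃ r = 0 := fun r => by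
        have : r ∈ LinearMap.ker (crossProduct b) := by rw [h]; trivial
        exact this
      have a0 := h0 ![1, 0, 0]
      have a1 := h0 ![0, 1, 0]
      simp [cross_apply] at a0 a1
      ext i
      fin_cases i <;> simp [a0, a1]
    exact measure_eq_zero_iff_ae_notMem.1 this
  filter_upwards [h1] with r hr
  have : volume ((LinearMap.ker (dotProductBilin ℝ ℝ (b ⨯₃ r)) : Submodule ℝ R3) : Set R3) = 0 := by
    apply Measure.addHaar_submodule
    intro h
    apply hr
    have : (b ⨯₃ r) ∈ LinearMap.ker (dotProductBilin ℝ ℝ (b ⨯₃ r)) := by rw [h]; trivial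
    exact dotProduct_self_eq_zero.1 this
  filter_upwards [measure_eq_zero_iff_ae_notMem.1 this] with r' hr' h
  apply hr'
  change (b ⨯₃ r) ⬝ᵥ r' = 0
  rw [dotProduct_comm, triple_product_permutation]
  exact h

/-- Totally irrational vectors that are not eigenvectors with positive eigenvalue of a nontrivial
element of `GL(3, ℤ)`. -/
def Generic (v : R3) : Prop :=
  (∀ c : Fin 3 → ℤ, c ≠ 0 → (fun i => (c i : ℝ)) ⬝ᵥ v ≠ 0) ∧
    ∀ (g : GL3) (t : ℝ), 0 < t → toR g *ᵥ v = t • v → g = 1

lemma abs_det_toR_GL (g : GL3) : |(toR g).det| = 1 := by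
  rw [det_toR]
  have : IsUnit (g : Matrix (Fin 3) (Fin 3) ℤ).det := (Matrix.isUnit_iff_isUnit_det _).1 g.isUnit
  rcases Int.isUnit_iff.1 this with h | h <;> simp [h]

lemma ae_generic : ∀ᵐ m : MM, Generic (vv m) := by
  have h1 : ∀ᵐ m : MM, ∀ c : Fin 3 → ℤ, c ≠ 0 → (fun i => (c i : ℝ)) ⬝ᵥ vv m ≠ 0 := by
    rw [ae_all_iff]
    intro c
    by_cases hc : c = 0
    · exact ae_of_all _ fun _ h => absurd hc h
    · have : (fun i => (c i : ℝ)) ≠ 0 := fun h => hc (funext fun i => by
        simpa using congrFun h i)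
      filter_upwards [ae_dot_vv_ne this] with m hm _ using hm
  have h2 : ∀ g : GL3, ∀ᵐ m : MM, vv m ≠ 0 → ∀ t : ℝ, 0 < t → toR g *ᵥ vv m = t • vv m → g = 1 := by
    intro g
    by_cases hg : g = 1
    · exact ae_of_all _ fun _ _ _ _ _ => hg
    have hfin : {t : ℝ | (toR g).charpoly.IsRoot t}.Finite :=
      Polynomial.finite_setOfPred_isRoot (Matrix.charpoly_monic _).ne_zero
    have h3 : ∀ t ∈ {t : ℝ | (toR g).charpoly.IsRoot t}, ∀ᵐ m : MM,
        0 < t → toR g *ᵥ vv m ≠ t • vv m := by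
      intro t _
      by_cases ht : 0 < t
      swap
      · exact ae_of_all _ fun _ h => absurd h ht
      have hne : toR g - t • (1 : M3) ≠ 0 := by
        intro h
        rw [sub_eq_zero] at h
        have h4 := abs_det_toR_GL g
        rw [h, Matrix.det_smul, Matrix.det_one, mul_one, Fintype.card_fin,
          abs_of_pos (by positivity)] at h4
        have h5 : t = 1 := (pow_eq_one_iff_of_nonneg ht.le (by norm_num)).1 h4
        rw [h5, one_smul, ← toR_one] at h
        exact hg (Units.ext (toR_injective h))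
      obtain ⟨i, hi⟩ := Function.ne_iff.1 hne
      filter_upwards [ae_dot_vv_ne hi] with m hm _ h
      apply hm
      have : (toR g - t • (1 : M3)) *ᵥ vv m = 0 := by
        rw [Matrix.sub_mulVec, h, Matrix.smul_mulVec, Matrix.one_mulVec, sub_self]
      exact congrFun this i
    filter_upwards [(ae_ball_iff hfin.countable).2 h3] with m hm hv t ht h
    refine absurd h (hm t ?_ ht)
    change (toR g).charpoly.eval t = 0
    rw [Matrix.eval_charpoly, ← Matrix.exists_mulVec_eq_zero_iff]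
    refine ⟨vv m, hv, ?_⟩
    rw [Matrix.sub_mulVec, h]
    ext i
    simp
  filter_upwards [h1, ae_all_iff.2 h2] with m hm hm'
  refine ⟨hm, fun g => hm' g ?_⟩
  intro h
  apply hm ![1, 0, 0] (by simp)
  simp [h]

lemma exists_farey (α : ℝ) (N : ℕ) : ∃ p q p' q' : ℤ, p * q' - p' * q = 1 ∧ 1 ≤ q ∧ 1 ≤ q' ∧
    (N : ℤ) ≤ q + q' ∧ 0 ≤ p - α * q ∧ p - α * q ≤ 1 ∧ -1 ≤ p' - α * q' ∧ p' - α * q' ≤ 0 := by
  induction N with
  | zero =>
    refine ⟨⌊α⌋ + 1, 1, ⌊α⌋, 1, by ring, le_rfl, le_rfl, by norm_num, ?_, ?_, ?_, ?_⟩ <;>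
      push_cast <;> linarith [Int.floor_le α, Int.lt_floor_add_one α]
  | succ N ih =>
    obtain ⟨p, q, p', q', h1, h2, h3, h4, h5, h6, h7, h8⟩ := ih
    by_cases h : 0 ≤ (p + p' : ℝ) - α * (q + q')
    · refine ⟨p + p', q + q', p', q', by linear_combination h1, by omega, h3, by push_cast; omega,
        ?_, ?_, h7, h8⟩ <;> push_cast <;> linarith
    · refine ⟨p, q, p + p', q + q', by linear_combination h1, h2, by omega, by push_cast; omega,
        h5, h6, ?_, ?_⟩ <;> push_cast <;> linarith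

lemma infinite_returns {m : MM} (hm : vv m 2 ≠ 0) :
    {γ : SL3 | ‖act m γ‖ ≤ 2 * ‖m‖}.Infinite := by
  set α := vv m 0 / vv m 2 with hα
  set β := vv m 1 / vv m 2 with hβ
  have key : ∀ r : R3, r ⬝ᵥ vv m = 0 → ‖r‖ ≤ ‖m‖ → ∀ p s q : ℝ, |p - α * q| ≤ 1 → |s - β * q| ≤ 1 →
      |r 0 * p + r 1 * s + r 2 * q| ≤ 2 * ‖m‖ := by
    intro r hr hrn p s q hp hs
    have e : r 0 * p + r 1 * s + r 2 * q = r 0 * (p - α * q) + r 1 * (s - β * q) := by
      simp only [dotProduct, Fin.sum_univ_three] at hr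
      rw [hα, hβ]
      field_simp
      linear_combination q * hr
    have b0 : |r 0| ≤ ‖m‖ := (norm_le_pi_norm r 0).trans hrn
    have b1 : |r 1| ≤ ‖m‖ := (norm_le_pi_norm r 1).trans hrn
    rw [e]
    refine (abs_add_le _ _).trans ?_
    rw [abs_mul, abs_mul]
    have := abs_nonneg (r 0)
    have := abs_nonneg (r 1)
    nlinarith
  have hround : ∀ x : ℝ, |(round x : ℝ) - x| ≤ 1 := fun x => by
    rw [abs_sub_comm]; exact (abs_sub_round x).trans (by norm_num)
  refine Set.infinite_of_not_bddAbove (α := ℤ) (s := (fun γ : SL3 => γ.1 2 0 + γ.1 2 1) ''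
    {γ : SL3 | ‖act m γ‖ ≤ 2 * ‖m‖}) ?_ |>.of_image _
  rintro ⟨N, hN⟩
  obtain ⟨p, q, p', q', h1, -, -, h4, h5, h6, h7, h8⟩ := exists_farey α (N.toNat + 1)
  let γ : SL3 := ⟨!![p, p', 0; round (β * q), round (β * q'), -1; q, q', 0], by
    simp [Matrix.det_fin_three]; linear_combination h1⟩
  have hγ : ‖act m γ‖ ≤ 2 * ‖m‖ := by
    have hrow : ∀ r : R3, r ⬝ᵥ vv m = 0 → ‖r‖ ≤ ‖m‖ → ‖r ᵥ* toR γ‖ ≤ 2 * ‖m‖ := by
      intro r hr hrn
      refine (pi_norm_le_iff_of_nonneg (by positivity)).2 fun j => ?_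
      rw [Real.norm_eq_abs]
      fin_cases j
      · simpa [γ, Matrix.vecMul, dotProduct, Fin.sum_univ_three, toR_apply] using
          key r hr hrn p (round (β * q)) q (abs_le.2 ⟨by linarith, h6⟩) (hround _)
      · simpa [γ, Matrix.vecMul, dotProduct, Fin.sum_univ_three, toR_apply] using
          key r hr hrn p' (round (β * q')) q' (abs_le.2 ⟨h7, by linarith⟩) (hround _)
      · simpa [γ, Matrix.vecMul, dotProduct, Fin.sum_univ_three, toR_apply] using
          key r hr hrn 0 (-1) 0 (by simp) (by simp)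
    rw [Prod.norm_def]
    exact max_le (hrow _ (dot_self_cross _ _) (norm_fst_le m))
      (hrow _ (dot_cross_self _ _) (norm_snd_le m))
  have h9 := hN ⟨γ, hγ, rfl⟩
  simp [γ] at h9
  push_cast at h4
  omega

theorem conservative (W : Set MM) (hW : MeasurableSet W) (N : ℝ)
    (h : ∀ᵐ m : MM, ∀ F : Finset SL3, (∀ γ ∈ F, act m γ ∈ W) → (F.card : ℝ) ≤ N) :
    volume W = 0 := by
  classical
  have hR : ∀ R : ℕ, ∀ᵐ m : MM, m ∈ W → {γ : SL3 | ‖act m γ‖ ≤ R}.Finite := by
    intro R
    let K : Set MM := Metric.closedBall 0 R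
    have hK : MeasurableSet K := measurableSet_closedBall
    let f : SL3 → MM → ℝ≥0∞ := fun γ => (W ∩ (fun m => act m γ) ⁻¹' K).indicator 1
    have hfm : ∀ γ, Measurable (f γ) := fun γ =>
      measurable_one.indicator (hW.inter ((measurePreserving_act γ).measurable hK))
    have h1 : ∫⁻ m, ∑' γ, f γ m = ∫⁻ m, ∑' γ, f γ (act m γ⁻¹) := by
      rw [lintegral_tsum fun γ => (hfm γ).aemeasurable, lintegral_tsum (f := fun γ m => f γ (act m γ⁻¹)) fun γ =>
        ((hfm γ).comp (measurePreserving_act γ⁻¹).measurable).aemeasurable]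
      exact tsum_congr fun γ => ((measurePreserving_act γ⁻¹).lintegral_comp (hfm γ)).symm
    have h2 : ∫⁻ m, ∑' γ, f γ (act m γ⁻¹) ≤ ∫⁻ m, K.indicator (fun _ => ENNReal.ofReal N) m := by
      refine lintegral_mono_ae ?_
      filter_upwards [h] with m hm
      rw [ENNReal.tsum_eq_iSup_sum]
      refine iSup_le fun F => ?_
      have e : ∀ γ, act (act m γ⁻¹) γ = m := fun γ => by
        rw [act_act, inv_mul_cancel, act_one]
      by_cases hmK : m ∈ K
      · rw [Set.indicator_of_mem hmK]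
        have h3 := hm ((F.filter fun γ => act m γ⁻¹ ∈ W).image fun γ => γ⁻¹) (by
          intro γ hγ
          obtain ⟨γ', hγ', rfl⟩ := Finset.mem_image.1 hγ
          exact (Finset.mem_filter.1 hγ').2)
        rw [Finset.card_image_of_injective _ inv_injective] at h3
        refine le_trans (le_of_eq ?_) (ENNReal.ofReal_le_ofReal h3)
        rw [ENNReal.ofReal_natCast, Finset.card_filter]
        push_cast
        refine Finset.sum_congr rfl fun γ _ => ?_
        simp [f, Set.indicator_apply, e, hmK]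
      · rw [Set.indicator_of_notMem hmK]
        refine le_of_eq (Finset.sum_eq_zero fun γ _ => ?_)
        simp [f, e, hmK]
    have h3 : ∫⁻ m, ∑' γ, f γ m ≠ ∞ := by
      rw [h1]
      refine ne_top_of_le_ne_top ?_ h2
      rw [lintegral_indicator_const hK]
      exact ENNReal.mul_ne_top ENNReal.ofReal_ne_top measure_closedBall_lt_top.ne
    filter_upwards [ae_lt_top (Measurable.tsum hfm) h3] with m hm hmW
    refine (ENNReal.finite_const_le_of_tsum_ne_top hm.ne one_ne_zero).subset fun γ hγ => ?_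
    have : act m γ ∈ K := by simpa [K] using hγ
    simp [f, hmW, this]
  have h2 : ∀ᵐ m : MM, vv m 2 ≠ 0 := by
    filter_upwards [ae_dot_vv_ne (b := ![0, 0, 1]) (by simp)] with m hm
    simpa [dotProduct, Fin.sum_univ_three] using hm
  rw [measure_eq_zero_iff_ae_notMem]
  filter_upwards [ae_all_iff.2 hR, h2] with m hm hv hmW
  obtain ⟨R, hR⟩ := exists_nat_ge (2 * ‖m‖)
  exact infinite_returns hv ((hm R hmW).subset fun γ hγ => le_trans hγ hR)

end Pool.Agent.Lib.MP_560012_lc
end

-- part Pool.Agent.Lib.MP_560012_lc.Lam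
section

/-!
The asymptotically equivariant random vertices.
-/

namespace Pool.Agent.Lib.MP_560012_lc

open MeasureTheory Filter Topology Matrix
open scoped ENNReal NNReal

/-- Completion of a pair of row vectors to a matrix of determinant one. -/
noncomputable def frame (m : MM) : M3 := Matrix.of ![(vv m ⬝ᵥ vv m)⁻¹ • vv m, m.1, m.2]

lemma det_frame {m : MM} (hm : vv m ≠ 0) : (frame m).det = 1 := by
  have h := triple_product_eq_det ((vv m ⬝ᵥ vv m)⁻¹ • vv m) m.1 m.2
  change _ = (frame m).det at h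
  rw [← h, smul_dotProduct, smul_eq_mul]
  exact inv_mul_cancel₀ fun h => hm (dotProduct_self_eq_zero.1 h)

lemma measurable_frame (i j : Fin 3) : Measurable fun m => frame m i j := by
  have h := continuous_vv
  fin_cases i
  · simp only [frame]
    simp
    exact ((h.dotProduct h).measurable.inv).mul ((continuous_apply j).comp h).measurable
  · simp [frame]; fun_prop
  · simp [frame]; fun_prop

/-- The diagonal matrix contracting the unipotent direction. -/
noncomputable def DD (n : ℕ) : M3 := Matrix.diagonal ![1, (n : ℝ) + 1, (n : ℝ) + 1]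

lemma det_DD (n : ℕ) : (DD n).det ≠ 0 := by
  have : (n : ℝ) + 1 ≠ 0 := by positivity
  simp [DD, Fin.prod_univ_three, this]

/-- The conjugate of a block triangular matrix by `DD n`. -/
noncomputable def conj (n : ℕ) (W : M3) : M3 :=
  fun i j => if i = 0 ∧ j ≠ 0 then W i j / ((n : ℝ) + 1) else W i j

lemma DD_mul {W : M3} (h1 : W 1 0 = 0) (h2 : W 2 0 = 0) (n : ℕ) : DD n * W = conj n W * DD n := by
  have : (n : ℝ) + 1 ≠ 0 := by positivity
  ext i j
  simp only [DD, Matrix.diagonal_mul, Matrix.mul_diagonal, conj]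
  fin_cases i <;> fin_cases j <;> simp [h1, h2, mul_comm] <;> field_simp

lemma det_conj {W : M3} (h1 : W 1 0 = 0) (h2 : W 2 0 = 0) (n : ℕ) : (conj n W).det = W.det := by
  have h := congrArg Matrix.det (DD_mul h1 h2 n)
  rw [Matrix.det_mul, Matrix.det_mul, mul_comm] at h
  exact (mul_right_cancel₀ (det_DD n) h).symm

lemma row_eq {f f' : M3} (hf : f.det ≠ 0) (i : Fin 3) (e : R3) (h : f' i = e ᵥ* f) :
    (f' * f⁻¹) i = e := by
  change f' i ᵥ* f⁻¹ = e
  rw [h, Matrix.vecMul_vecMul, Matrix.mul_nonsing_inv _ (isUnit_iff_ne_zero.2 hf),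
    Matrix.vecMul_one]

instance : MulAction SL3 GL3 := MulAction.compHom GL3 Matrix.SpecialLinearGroup.toGL

lemma smul_GL (γ : SL3) (a : GL3) : γ • a = Matrix.SpecialLinearGroup.toGL γ * a := rfl

instance : MeasurableSpace GL3 := ⊤

instance : DiscreteMeasurableSpace GL3 := ⟨fun _ => trivial⟩

theorem exists_lam : ∃ lam : ℕ → MM → Measure GL3, (∀ n m, IsProbabilityMeasure (lam n m)) ∧
    (∀ n v, Measurable fun m => lam n m {v}) ∧
    (∀ m, vv m ≠ 0 → ∀ γ : SL3, ∃ n₀, ∀ n, n₀ ≤ n → ∀ A : Set GL3,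
      (lam n (act m γ)).real ((fun z => γ • z) ⁻¹' A) ≤ (3 * 1) ^ 10 * (lam n m).real A) ∧
    ∀ m, vv m ≠ 0 → ∀ a b c d : ℝ, a * d - b * c ≠ 0 →
      ∃ C : ℝ, ∀ n A, (lam n (lmul a b c d m)).real A ≤ C * (lam n m).real A := by
  obtain ⟨ν, hν, hνdet, hνcmp⟩ := exists_nu
  obtain ⟨σ, hσm, hσ⟩ := exists_sigma
  let τ : Mat → GL3 := fun g => Matrix.SpecialLinearGroup.toGL (σ g)
  have hτ : Measurable τ := by
    let _ : MeasurableSpace SL3 := ⊤
    exact (measurable_from_top (f := fun γ : SL3 => Matrix.SpecialLinearGroup.toGL γ)).comp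
      (measurable_to_countable' hσm)
  have hrm : ∀ U : M3, Measurable (rmul U) := fun U =>
    measurable_rmul (fun _ _ => measurable_const) measurable_id
  let κ : M3 → Measure GL3 := fun g => ν.map fun ω => τ (rmul g ω)
  have hκ : ∀ g A, (κ g).real A = ν.real ((fun ω => τ (rmul g ω)) ⁻¹' A) := fun g A =>
    map_measureReal_apply (hτ.comp (hrm g)) trivial
  have hcmp : ∀ (n : ℕ) (f W : M3) (γ : SL3) (B : ℝ), f.det ≠ 0 → W 1 0 = 0 → W 2 0 = 0 →
      |W.det| = 1 → 1 ≤ B → (∀ i j, |conj n W i j| ≤ B) → ∀ A : Set GL3,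
      (κ (DD n * (W * f * toR γ))).real ((fun z => γ • z) ⁻¹' A) ≤
        (3 * B) ^ 10 * (κ (DD n * f)).real A := by
    intro n f W γ B hf h1 h2 hW hB hWB A
    have hdet : |(conj n W).det| = 1 := by rw [det_conj h1 h2, hW]
    rw [hκ, hκ]
    refine le_trans (le_of_eq ?_) (hνcmp (conj n W) B hdet hB hWB _
      ((hτ.comp (hrm _)) (show MeasurableSet A from trivial)))
    apply measureReal_congr
    filter_upwards [hνdet] with ω hω
    have e : rmul (DD n * (W * f * toR γ)) ω =
        rmul (toR γ) (rmul (DD n * f) (rmul (conj n W) ω)) := by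
      rw [rmul_rmul, rmul_rmul, ← Matrix.mul_assoc, ← Matrix.mul_assoc, DD_mul h1 h2]
      simp only [Matrix.mul_assoc]
    have hne : (Matrix.of (rmul (DD n * f) (rmul (conj n W) ω))).det ≠ 0 := by
      rw [det_rmul, det_rmul, Matrix.det_mul]
      refine mul_ne_zero (mul_ne_zero hω fun h => ?_) (mul_ne_zero (det_DD n) hf)
      rw [h] at hdet; simp at hdet
    change (γ • τ (rmul (DD n * (W * f * toR γ)) ω) ∈ A) =
      (τ (rmul (DD n * f) (rmul (conj n W) ω)) ∈ A)
    simp only [τ]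
    rw [e, hσ _ hne, smul_GL, ← map_mul, mul_inv_cancel_left]
  refine ⟨fun n m => κ (DD n * frame m), fun n m => ?_, fun n v => ?_, ?_, ?_⟩
  · exact Measure.isProbabilityMeasure_map (hτ.comp (hrm _)).aemeasurable
  · have h1 : Measurable fun p : MM × Mat => τ (rmul (DD n * frame p.1) p.2) := by
      refine hτ.comp (measurable_rmul (fun i j => ?_) measurable_snd)
      simp only [Matrix.mul_apply]
      exact Finset.measurable_sum _ fun k _ =>
        measurable_const.mul ((measurable_frame k j).comp measurable_fst)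
    have h2 := measurable_measure_prodMk_left (ν := ν) (h1 (measurableSet_singleton v))
    convert h2 using 2 with m
    exact Measure.map_apply (hτ.comp (hrm _)) trivial
  · intro m hm γ
    have hf : (frame m * toR γ).det ≠ 0 := by
      rw [Matrix.det_mul, det_frame hm, det_toR_SL]; simp
    set W := frame (act m γ) * (frame m * toR γ)⁻¹ with hW
    have r1 : W 1 = ![0, 1, 0] := row_eq hf 1 _ (by
      ext j; simp [frame, act, Matrix.vecMul, dotProduct, Fin.sum_univ_three, Matrix.mul_apply])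
    have r2 : W 2 = ![0, 0, 1] := row_eq hf 2 _ (by
      ext j; simp [frame, act, Matrix.vecMul, dotProduct, Fin.sum_univ_three, Matrix.mul_apply])
    have e : frame (act m γ) = W * frame m * toR γ := by
      rw [hW, Matrix.mul_assoc, Matrix.mul_assoc, Matrix.nonsing_inv_mul _
        (isUnit_iff_ne_zero.2 hf), Matrix.mul_one]
    have hdet : W.det = 1 := by
      have := congrArg Matrix.det e
      rw [Matrix.det_mul, Matrix.det_mul, det_frame hm, det_frame (vv_act_ne hm γ),
        det_toR_SL] at this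
      linarith
    have h00 : W 0 0 = 1 := by
      rw [Matrix.det_fin_three] at hdet
      simpa [r1, r2] using hdet
    obtain ⟨B, -, hB⟩ := exists_entry_bound W
    obtain ⟨n₀, hn₀⟩ := exists_nat_ge B
    refine ⟨n₀, fun n hn A => ?_⟩
    have := hcmp n (frame m) W γ 1 (by rw [det_frame hm]; simp) (by simp [r1]) (by simp [r2])
      (by rw [hdet, abs_one]) le_rfl ?_ A
    · rwa [← e] at this
    · have hn' : (n₀ : ℝ) ≤ n := by exact_mod_cast hn
      have hdiv : ∀ j, |W 0 j / ((n : ℝ) + 1)| ≤ 1 := fun j => by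
        rw [abs_div, abs_of_pos (by positivity : (0 : ℝ) < n + 1), div_le_one (by positivity)]
        linarith [hB 0 j]
      intro i j
      fin_cases i <;> fin_cases j <;> simp [conj, h00, r1, r2, hdiv]
  · intro m hm a b c d hd
    have hf : (frame m).det ≠ 0 := by rw [det_frame hm]; simp
    have hm' : vv (lmul a b c d m) ≠ 0 := by rw [vv_lmul]; exact smul_ne_zero hd hm
    set W := frame (lmul a b c d m) * (frame m)⁻¹ with hW
    have r1 : W 1 = ![0, a, b] := row_eq hf 1 _ (by
      ext j; simp [frame, lmul, Matrix.vecMul, dotProduct, Fin.sum_univ_three])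
    have r2 : W 2 = ![0, c, d] := row_eq hf 2 _ (by
      ext j; simp [frame, lmul, Matrix.vecMul, dotProduct, Fin.sum_univ_three])
    have e : frame (lmul a b c d m) = W * frame m * toR (1 : SL3) := by
      rw [hW, Matrix.SpecialLinearGroup.coe_one, toR_one, Matrix.mul_one, Matrix.mul_assoc,
        Matrix.nonsing_inv_mul _ (isUnit_iff_ne_zero.2 hf), Matrix.mul_one]
    have hdet : W.det = 1 := by
      have := congrArg Matrix.det e
      rw [Matrix.det_mul, Matrix.det_mul, det_frame hm, det_frame hm', det_toR_SL] at this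
      linarith
    obtain ⟨B, hB1, hB⟩ := exists_entry_bound W
    refine ⟨(3 * B) ^ 10, fun n A => ?_⟩
    have := hcmp n (frame m) W 1 B hf (by simp [r1]) (by simp [r2])
      (by rw [hdet, abs_one]) hB1 ?_ A
    · rw [← e] at this
      simpa using this
    · intro i j
      simp only [conj]
      split_ifs
      · rw [abs_div, abs_of_pos (by positivity : (0 : ℝ) < n + 1)]
        refine (div_le_self (abs_nonneg _) ?_).trans (hB i j)
        simp
      · exact hB i j

end Pool.Agent.Lib.MP_560012_lc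
end

-- part Pool.Agent.Lib.MP_560012_lc.Final
section

/-!
There is no measurable, projectively invariant, equivariant field of trees on `GL(3, ℤ)` over
generic vectors of `ℝ³`.
-/

namespace Pool.Agent.Lib.MP_560012_lc

open MeasureTheory Filter Topology Matrix
open scoped ENNReal NNReal

lemma ae_comp_of_surjective {E F : Type*} [NormedAddCommGroup E] [NormedSpace ℝ E]
    [MeasurableSpace E] [BorelSpace E] [FiniteDimensional ℝ E] [NormedAddCommGroup F]
    [NormedSpace ℝ F] [MeasurableSpace F] [BorelSpace F] [FiniteDimensional ℝ F]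
    (μ : Measure E) [μ.IsAddHaarMeasure] (ν : Measure F) [ν.IsAddHaarMeasure] (L : E →ₗ[ℝ] F)
    (hL : Function.Surjective L) {p : F → Prop} (h : ∀ᵐ y ∂ν, p y) : ∀ᵐ x ∂μ, p (L x) := by
  obtain ⟨c, -, hc⟩ := L.exists_map_addHaar_eq_smul_addHaar μ ν hL
  refine ae_of_ae_map L.continuous_of_finiteDimensional.aemeasurable ?_
  rw [hc]
  exact Measure.ae_smul_measure h c

/-- The pair of rows `(1, 0, -x)`, `(0, 1, -y)`. -/
def mu (u : ℝ × ℝ) : MM := (![1, 0, -u.1], ![0, 1, -u.2])

lemma vv_mu_ne (u : ℝ × ℝ) : vv (mu u) ≠ 0 := by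
  intro h
  have := congrFun h 2
  simp [vv, mu, cross_apply] at this

lemma measurable_mu : Measurable mu := by
  refine Measurable.prodMk ?_ ?_ <;> refine measurable_pi_lambda _ fun i => ?_ <;>
    fin_cases i <;> simp <;> fun_prop

lemma ae_mu {p : MM → Prop} (h : ∀ᵐ m : MM, p m) :
    ∃ a b c d : ℝ, 0 < a * d - b * c ∧ ∀ᵐ u : ℝ × ℝ, p (lmul a b c d (mu u)) := by
  let L : ((ℝ × ℝ) × (ℝ × ℝ)) × (ℝ × ℝ) →ₗ[ℝ] MM :=
    { toFun := fun q => (![q.1.1.1, q.1.1.2, q.2.1], ![q.1.2.1, q.1.2.2, q.2.2])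
      map_add' := fun q q' => by ext i <;> fin_cases i <;> simp
      map_smul' := fun t q => by ext i <;> fin_cases i <;> simp }
  have hL : Function.Surjective L := fun m =>
    ⟨(((m.1 0, m.1 1), (m.2 0, m.2 1)), (m.1 2, m.2 2)), by
      ext i <;> fin_cases i <;> simp [L]⟩
  have i1 : (volume : Measure (ℝ × ℝ)).IsAddHaarMeasure := inferInstance
  have i2 : (volume : Measure ((ℝ × ℝ) × (ℝ × ℝ))).IsAddHaarMeasure :=
    Measure.prod.instIsAddHaarMeasure _ _
  have i3 : ((volume : Measure ((ℝ × ℝ) × (ℝ × ℝ))).prod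
      (volume : Measure (ℝ × ℝ))).IsAddHaarMeasure := Measure.prod.instIsAddHaarMeasure _ _
  have i4 : (volume : Measure MM).IsAddHaarMeasure := Measure.prod.instIsAddHaarMeasure _ _
  have h1 := Measure.ae_ae_of_ae_prod
    (ae_comp_of_surjective ((volume : Measure ((ℝ × ℝ) × (ℝ × ℝ))).prod
      (volume : Measure (ℝ × ℝ))) volume L hL h)
  have hS : IsOpen {q : (ℝ × ℝ) × (ℝ × ℝ) | 0 < q.1.1 * q.2.2 - q.1.2 * q.2.1} :=
    isOpen_lt continuous_const (by fun_prop)
  have hpos := (hS.measure_pos volume ⟨((1, 0), (0, 1)), by simp⟩).ne'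
  obtain ⟨⟨⟨a, b⟩, ⟨c, d⟩⟩, hq, hq'⟩ := Measure.exists_mem_of_measure_ne_zero_of_ae hpos
    (ae_restrict_of_ae h1)
  have hq : 0 < a * d - b * c := hq
  refine ⟨a, b, c, d, hq, ?_⟩
  let L' : ℝ × ℝ →ₗ[ℝ] ℝ × ℝ :=
    { toFun := fun u => (-(a * u.1 + b * u.2), -(c * u.1 + d * u.2))
      map_add' := fun q q' => by ext <;> simp <;> ring
      map_smul' := fun t q => by ext <;> simp <;> ring }
  have hL' : Function.Surjective L' := fun w =>
    ⟨((b * w.2 - d * w.1) / (a * d - b * c), (c * w.1 - a * w.2) / (a * d - b * c)), by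
      have hinv := mul_inv_cancel₀ hq.ne'
      ext <;> simp only [L', LinearMap.coe_mk, AddHom.coe_mk, div_eq_mul_inv]
      · linear_combination w.1 * hinv
      · linear_combination w.2 * hinv⟩
  filter_upwards [ae_comp_of_surjective volume volume L' hL' hq'] with u hu
  convert hu using 1
  ext i <;> fin_cases i <;> simp [L, L', lmul, mu] <;> ring

lemma lmul_lmul_inv {a b c d : ℝ} (h : a * d - b * c ≠ 0) (m : MM) :
    lmul (d / (a * d - b * c)) (-b / (a * d - b * c)) (-c / (a * d - b * c)) (a / (a * d - b * c))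
      (lmul a b c d m) = m := by
  have hinv := mul_inv_cancel₀ h
  ext i <;> simp only [lmul, Pi.add_apply, Pi.smul_apply, smul_eq_mul, div_eq_mul_inv]
  · linear_combination m.1 i * hinv
  · linear_combination m.2 i * hinv

/-- A nonzero integer vector attached to a matrix, equivariant under the affine group. -/
def ww (a : GL3) : ℤ × ℤ :=
  if a.1 2 0 = 0 then (a.1 0 0, a.1 1 0)
  else (a.1 0 0 * a.1 2 1 - a.1 0 1 * a.1 2 0, a.1 1 0 * a.1 2 1 - a.1 1 1 * a.1 2 0)

lemma ww_ne (a : GL3) : ww a ≠ 0 := by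
  have hd : a.1.det ≠ 0 := ((Matrix.isUnit_iff_isUnit_det _).1 a.isUnit).ne_zero
  rw [Matrix.det_fin_three] at hd
  unfold ww
  split_ifs with h
  · intro h'
    simp only [Prod.mk_eq_zero] at h'
    apply hd
    simp [h, h'.1, h'.2]
  · intro h'
    simp only [Prod.mk_eq_zero] at h'
    apply mul_ne_zero h hd
    linear_combination (a.1 2 2 * a.1 1 0 - a.1 2 0 * a.1 1 2) * h'.1 +
      (a.1 2 0 * a.1 0 2 - a.1 2 2 * a.1 0 0) * h'.2

/-- An element of the affine group of the plane, as an element of `SL(3, ℤ)`. -/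
def aff (a b c d e f : ℤ) (h : a * d - b * c = 1) : SL3 :=
  ⟨!![a, b, e; c, d, f; 0, 0, 1], by simp [Matrix.det_fin_three]; linear_combination h⟩

lemma ww_aff (a b c d e f : ℤ) (h : a * d - b * c = 1) (z : GL3) :
    ww (aff a b c d e f h • z) = (a * (ww z).1 + b * (ww z).2, c * (ww z).1 + d * (ww z).2) := by
  have key : ∀ i j, (aff a b c d e f h • z).1 i j =
      ∑ k, !![a, b, e; c, d, f; 0, 0, 1] i k * z.1 k j := fun i j => rfl
  unfold ww
  simp only [key, Fin.sum_univ_three]
  simp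
  split_ifs with h1
  · simp [h1]
  · ext <;> simp <;> ring

lemma act_mu_aff (a b c d e f : ℤ) (h : a * d - b * c = 1) (u u' : ℝ × ℝ)
    (h1 : a * u'.1 + b * u'.2 + e = u.1) (h2 : c * u'.1 + d * u'.2 + f = u.2) :
    act (mu u) (aff a b c d e f h) = lmul a b c d (mu u') := by
  ext i <;> fin_cases i <;>
    simp [act, mu, lmul, aff, Matrix.vecMul, dotProduct, Fin.sum_univ_three, toR_apply] <;>
    linarith

lemma ratio_preimage {V W : Type*} (e : V ≃ W) (B S : Set W) :
    ratio (e ⁻¹' B) (e ⁻¹' S) = ratio B S := by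
  unfold ratio
  rw [← Set.preimage_inter, Set.ncard_preimage_of_injective_subset_range e.injective
    (by simp), Set.ncard_preimage_of_injective_subset_range e.injective (by simp)]

lemma ratio_three {V : Type*} {B S₁ S₂ S₃ : Set V} (h12 : Disjoint S₁ S₂) (h13 : Disjoint S₁ S₃)
    (h23 : Disjoint S₂ S₃) : ratio B S₁ + ratio B S₂ + ratio B S₃ ≤ 1 := by
  unfold ratio
  by_cases hB : B.Finite
  · rw [← add_div, ← add_div]
    apply div_le_one_of_le₀ _ (by positivity)
    have e1 := Set.ncard_union_eq (h12.mono Set.inter_subset_right Set.inter_subset_right :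
      Disjoint (B ∩ S₁) (B ∩ S₂)) (hB.inter_of_left _) (hB.inter_of_left _)
    have e2 := Set.ncard_union_eq (s := B ∩ S₁ ∪ B ∩ S₂) (t := B ∩ S₃)
      (Set.disjoint_union_left.2 ⟨h13.mono Set.inter_subset_right Set.inter_subset_right,
        h23.mono Set.inter_subset_right Set.inter_subset_right⟩)
      ((hB.inter_of_left _).union (hB.inter_of_left _)) (hB.inter_of_left _)
    have e3 : (B ∩ S₁ ∪ B ∩ S₂ ∪ B ∩ S₃).ncard ≤ B.ncard :=
      Set.ncard_le_ncard (by simp) hB
    rw [e2, e1] at e3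
    exact_mod_cast e3
  · rw [Set.Infinite.ncard hB]; simp

lemma ratio_cover {V : Type*} {B S₁ S₂ : Set V} (hB : B.Finite) (hne : B.Nonempty)
    (h : ∀ z, z ∈ S₁ ∨ z ∈ S₂) : 1 ≤ ratio B S₁ + ratio B S₂ := by
  unfold ratio
  have hpos : (0 : ℝ) < B.ncard := by exact_mod_cast (Set.ncard_pos hB).2 hne
  rw [← add_div, le_div_iff₀ hpos, one_mul]
  have e1 : B.ncard ≤ (B ∩ S₁ ∪ B ∩ S₂).ncard :=
    Set.ncard_le_ncard (fun z hz => (h z).imp (fun h => ⟨hz, h⟩) fun h => ⟨hz, h⟩)
      ((hB.inter_of_left _).union (hB.inter_of_left _))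
  exact_mod_cast e1.trans (Set.ncard_union_le _ _)

abbrev TT := UnitAddCircle × UnitAddCircle

instance : IsProbabilityMeasure (volume : Measure UnitAddCircle) := ⟨UnitAddCircle.measure_univ⟩

lemma measurePreserving_shear₂ (k : ℤ) :
    MeasurePreserving fun t : TT => (t.1, t.2 - k • t.1) :=
  (MeasurePreserving.id volume).skew_product (g := fun x y => y - k • x) (by fun_prop)
    (ae_of_all _ fun x => (measurePreserving_sub_right volume (k • x)).map_eq)

lemma measurePreserving_shear₁ (k : ℤ) :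
    MeasurePreserving fun t : TT => (t.1 - k • t.2, t.2) :=
  Measure.measurePreserving_swap.comp
    ((measurePreserving_shear₂ k).comp Measure.measurePreserving_swap)

/-- A measurable section of the projection from the line to the circle. -/
noncomputable def sec (t : UnitAddCircle) : ℝ := AddCircle.equivIoc 1 0 t

lemma coe_sec (t : UnitAddCircle) : ((sec t : ℝ) : UnitAddCircle) = t := AddCircle.coe_equivIoc

lemma measurePreserving_sec :
    MeasurePreserving sec volume (volume.restrict (Set.Ioc (0 : ℝ) (0 + 1))) :=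
  (measurePreserving_subtype_coe measurableSet_Ioc).comp (AddCircle.measurePreserving_equivIoc 1)

lemma ae_sec {p : ℝ × ℝ → Prop} (h : ∀ᵐ u : ℝ × ℝ, p u) : ∀ᵐ t : TT, p (sec t.1, sec t.2) := by
  have h1 := (measurePreserving_sec.prod measurePreserving_sec).quasiMeasurePreserving
  refine h1.ae (p := p) ?_
  rw [Measure.prod_restrict]
  exact ae_restrict_of_ae h

lemma exists_int_sec (x y : UnitAddCircle) (k : ℤ) :
    ∃ e : ℤ, sec (x - k • y) + k * sec y + e = sec x := by
  have : ((sec x - sec (x - k • y) - k • sec y : ℝ) : UnitAddCircle) = 0 := by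
    rw [AddCircle.coe_sub, AddCircle.coe_sub, AddCircle.coe_zsmul, coe_sec, coe_sec, coe_sec]
    abel
  obtain ⟨e, he⟩ := (AddCircle.coe_eq_zero_iff 1).1 this
  refine ⟨e, ?_⟩
  simp only [zsmul_eq_mul, mul_one] at he
  linarith

theorem no_tree_field (T' : R3 → SimpleGraph GL3)
    (hm : ∀ a b, Measurable fun v => (T' v).Adj a b)
    (hs : ∀ v (t : ℝ), 0 < t → T' (t • v) = T' v)
    (he : ∀ v (γ : SL3) a b, (T' v).Adj a b ↔ (T' (toR γ *ᵥ v)).Adj (γ • a) (γ • b))
    (ht : ∀ v, Generic v → (T' v).IsTree) : False := by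
  obtain ⟨lam, hprob, hmeas, hR1, hR2⟩ := exists_lam
  let T : MM → SimpleGraph GL3 := fun m => T' (vv m)
  have hM₀ : ∀ᵐ m : MM, vv m ≠ 0 := by
    filter_upwards [ae_dot_vv_ne (b := ![1, 0, 0]) (by simp)] with m hm h
    simp [h] at hm
  obtain ⟨O, hOm, hOe, hOl, hO⟩ := core (V := GL3) (Γ := SL3)
    (fun x γ γ' h => Matrix.SpecialLinearGroup.toGL_injective (mul_right_cancel h))
    volume act act_act_inv {m | vv m ≠ 0} hM₀ (fun m hm γ => vv_act_ne hm γ) T
    (fun a b => (hm a b).comp continuous_vv.measurable)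
    (fun m γ a b => by simp only [T]; rw [he _ γ, mulVec_vv_act])
    (ae_generic.mono fun m hm => ht _ hm) conservative lam hprob hmeas _ hR1
  have hTl : ∀ a b c d m, 0 < a * d - b * c → T (lmul a b c d m) = T m := by
    intro a b c d m h
    simp only [T]
    rw [vv_lmul, hs _ _ h]
  have hOl' : ∀ a b c d m, 0 < a * d - b * c → vv m ≠ 0 → O (lmul a b c d m) = O m := by
    intro a b c d m h hv
    ext x y
    refine ⟨hOl _ _ (hTl a b c d m h).symm (hR2 m hv a b c d h.ne') x y, fun hxy => ?_⟩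
    have hv' : vv (lmul a b c d m) ≠ 0 := by rw [vv_lmul]; exact smul_ne_zero h.ne' hv
    refine hOl _ _ (hTl a b c d m h) ?_ x y hxy
    have := hR2 _ hv' (d / (a * d - b * c)) (-b / (a * d - b * c)) (-c / (a * d - b * c))
      (a / (a * d - b * c)) (by
        have : d / (a * d - b * c) * (a / (a * d - b * c)) -
          -b / (a * d - b * c) * (-c / (a * d - b * c)) = 1 / (a * d - b * c) := by
            field_simp
        rw [this]; positivity)
    rwa [lmul_lmul_inv h.ne'] at this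
  obtain ⟨a₀, b₀, c₀, d₀, h₀, hu⟩ := ae_mu hO
  have hu' : ∀ᵐ u : ℝ × ℝ, EndLike (T (mu u)) (O (mu u)) := by
    filter_upwards [hu] with u hu
    rwa [hTl _ _ _ _ _ h₀, hOl' _ _ _ _ _ h₀ (vv_mu_ne u)] at hu
  have hT := ae_sec hu'
  let s : TT → ℝ × ℝ := fun t => (sec t.1, sec t.2)
  have hs : Measurable s := (measurePreserving_sec.measurable.comp measurable_fst).prodMk
    (measurePreserving_sec.measurable.comp measurable_snd)
  let φ : ℕ → Set (ℤ × ℤ) → TT → ℝ := fun L X t => ratio (Ball (O (mu (s t))) 1 L) (ww ⁻¹' X)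
  have hφm : ∀ L X, Measurable (φ L X) := by
    intro L X
    have h1 : ∀ z, Measurable fun t => z ∈ Ball (O (mu (s t))) 1 L := fun z =>
      (measurable_mem_ball hOm 1 L z).comp (measurable_mu.comp hs)
    refine Measurable.div ?_ ?_
    · exact (measurable_from_top (f := fun n : ℕ => (n : ℝ))).comp (measurable_ncard.comp
        (measurable_set_iff.2 fun z => (h1 z).and measurable_const))
    · exact (measurable_from_top (f := fun n : ℕ => (n : ℝ))).comp (measurable_ncard.comp
        (measurable_set_iff.2 h1))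
  have hφb : ∀ L X t, ‖φ L X t‖ ≤ 1 := fun L X t => by
    rw [Real.norm_eq_abs, abs_of_nonneg (ratio_nonneg _ _)]; exact ratio_le_one _ _
  have hφi : ∀ L X, Integrable (φ L X) := fun L X =>
    Integrable.of_bound (hφm L X).aestronglyMeasurable 1 (ae_of_all _ (hφb L X))
  let I : ℕ → Set (ℤ × ℤ) → ℝ := fun L X => ∫ t, φ L X t
  have hinv : ∀ (a b c d : ℤ) (h : a * d - b * c = 1) (ψ : TT → TT), MeasurePreserving ψ →
      (∀ t, ∃ e f : ℤ, a * (s (ψ t)).1 + b * (s (ψ t)).2 + e = (s t).1 ∧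
        c * (s (ψ t)).1 + d * (s (ψ t)).2 + f = (s t).2) → ∀ X X' : Set (ℤ × ℤ),
      (∀ w : ℤ × ℤ, w ∈ X ↔ (a * w.1 + b * w.2, c * w.1 + d * w.2) ∈ X') →
      Tendsto (fun L => I L X - I L X') atTop (𝓝 0) := by
    intro a b c d h ψ hψ hef X X' hX
    have e1 : ∀ L, I L X - I L X' = ∫ t, (φ L X (ψ t) - φ L X' t) := by
      intro L
      rw [integral_sub (f := fun t => φ L X (ψ t))
        (hψ.integrable_comp_of_integrable (hφi L X)) (hφi L X')]
      congr 1
      simp only [I]
      conv_lhs => rw [← hψ.map_eq]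
      exact integral_map hψ.measurable.aemeasurable (hφm L X).aestronglyMeasurable
    simp only [e1]
    have := tendsto_integral_of_dominated_convergence (μ := (volume : Measure TT))
      (F := fun L t => φ L X (ψ t) - φ L X' t) (f := fun _ => 0) (fun _ => 2)
      (fun L => (((hφm L X).comp hψ.measurable).sub (hφm L X')).aestronglyMeasurable)
      (integrable_const _)
      (fun L => ae_of_all _ fun t => (norm_sub_le _ _).trans (by
        linarith [hφb L X (ψ t), hφb L X' t])) ?_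
    · simpa using this
    filter_upwards [hT] with t ht
    obtain ⟨e, f, h1, h2⟩ := hef t
    have hpos : (0 : ℝ) < a * d - b * c := by
      have : ((a * d - b * c : ℤ) : ℝ) = 1 := by rw [h]; simp
      push_cast at this
      linarith
    have e2 : ∀ L, φ L X (ψ t) =
        ratio (Ball (O (mu (s t))) (aff a b c d e f h • 1) L) (ww ⁻¹' X') := by
      intro L
      simp only [φ]
      rw [← ratio_preimage (MulAction.toPerm (aff a b c d e f h)) _ (ww ⁻¹' X')]
      congr 1
      · ext z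
        rw [← hOl' _ _ _ _ _ hpos (vv_mu_ne _), ← act_mu_aff a b c d e f h _ _ h1 h2]
        exact mem_ball_equiv (MulAction.toPerm (aff a b c d e f h))
          (hOe _ (vv_mu_ne _) _) 1 L z
      · ext z
        simp only [Set.mem_preimage, MulAction.toPerm_apply, ww_aff]
        exact hX _
    simp only [e2]
    exact ht.ratio_tendsto _ _ _
  have hup : ∀ k : ℤ, Tendsto (fun L => I L {w | |w.1| ≤ |w.2|} -
      I L {w | |w.1 - k * w.2| ≤ |w.2|}) atTop (𝓝 0) := fun k =>
    hinv 1 k 0 1 (by ring) _ (measurePreserving_shear₁ k) (fun t => by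
      obtain ⟨e, he⟩ := exists_int_sec t.1 t.2 k
      exact ⟨e, 0, by simpa [s] using he, by simp [s]⟩) _ _ (fun w => by simp)
  have hlow : ∀ k : ℤ, Tendsto (fun L => I L {w | |w.2| ≤ |w.1|} -
      I L {w | |w.2 - k * w.1| ≤ |w.1|}) atTop (𝓝 0) := fun k =>
    hinv 1 0 k 1 (by ring) _ (measurePreserving_shear₂ k) (fun t => by
      obtain ⟨e, he⟩ := exists_int_sec t.2 t.1 k
      exact ⟨0, e, by simp [s], by simpa [s, add_comm] using he⟩) _ _ (fun w => by simp)
  have hthree : ∀ L (X₁ X₂ X₃ : Set (ℤ × ℤ)), (∀ w ∈ X₁, w ∈ X₂ → w = 0) →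
      (∀ w ∈ X₁, w ∈ X₃ → w = 0) → (∀ w ∈ X₂, w ∈ X₃ → w = 0) → I L X₁ + I L X₂ + I L X₃ ≤ 1 := by
    intro L X₁ X₂ X₃ h12 h13 h23
    have hd : ∀ X Y : Set (ℤ × ℤ), (∀ w ∈ X, w ∈ Y → w = 0) → Disjoint (ww ⁻¹' X) (ww ⁻¹' Y) :=
      fun X Y h => Set.disjoint_left.2 fun z h1 h2 => ww_ne z (h _ h1 h2)
    simp only [I]
    rw [← integral_add (hφi _ _) (hφi _ _), ← integral_add (f := fun t => φ L X₁ t + φ L X₂ t)
      ((hφi _ _).add (hφi _ _)) (hφi _ _)]
    calc _ ≤ ∫ _ : TT, (1 : ℝ) := integral_mono (((hφi _ _).add (hφi _ _)).add (hφi _ _))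
          (integrable_const _) fun t => ratio_three (hd _ _ h12) (hd _ _ h13) (hd _ _ h23)
      _ = 1 := by simp
  have hcov : ∀ L, 1 ≤ I L {w | |w.1| ≤ |w.2|} + I L {w | |w.2| ≤ |w.1|} := by
    intro L
    simp only [I]
    rw [← integral_add (hφi _ _) (hφi _ _)]
    calc (1 : ℝ) = ∫ _ : TT, (1 : ℝ) := by simp
      _ ≤ _ := integral_mono_ae (integrable_const _) ((hφi _ _).add (hφi _ _)) ?_
    filter_upwards [hT] with t ht
    exact ratio_cover (ht.ball_finite _ _) ⟨_, self_mem_ball _ _ _⟩ fun z =>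
      le_total |(ww z).1| |(ww z).2|
  have hlim := ((hup 3).add (hup (-3))).add ((hlow 3).add (hlow (-3)))
  simp only [add_zero] at hlim
  obtain ⟨L, hL⟩ := (hlim.eventually (gt_mem_nhds one_pos)).exists
  have a1 := hthree L {w | |w.1| ≤ |w.2|} {w | |w.1 - 3 * w.2| ≤ |w.2|}
    {w | |w.1 - (-3) * w.2| ≤ |w.2|}
    (by rintro ⟨x, y⟩; simp only [Set.mem_ofPred_eq, Prod.mk_eq_zero, Int.abs_eq_natAbs]; omega)
    (by rintro ⟨x, y⟩; simp only [Set.mem_ofPred_eq, Prod.mk_eq_zero, Int.abs_eq_natAbs]; omega)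
    (by rintro ⟨x, y⟩; simp only [Set.mem_ofPred_eq, Prod.mk_eq_zero, Int.abs_eq_natAbs]; omega)
  have a2 := hthree L {w | |w.2| ≤ |w.1|} {w | |w.2 - 3 * w.1| ≤ |w.1|}
    {w | |w.2 - (-3) * w.1| ≤ |w.1|}
    (by rintro ⟨x, y⟩; simp only [Set.mem_ofPred_eq, Prod.mk_eq_zero, Int.abs_eq_natAbs]; omega)
    (by rintro ⟨x, y⟩; simp only [Set.mem_ofPred_eq, Prod.mk_eq_zero, Int.abs_eq_natAbs]; omega)
    (by rintro ⟨x, y⟩; simp only [Set.mem_ofPred_eq, Prod.mk_eq_zero, Int.abs_eq_natAbs]; omega)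
  linarith [hcov L]

end Pool.Agent.Lib.MP_560012_lc
end
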